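import Mathlib
import Pool.Graph.R_seed8.TH202.Dat
import Pool.Graph.R_seed8.TH202.Defs

/-!
# The function field of the quotient of a triple product of elliptic curves

The field `K = ℂ(a, b, c)(r, q)`, `r^3 = f(b) / f(a)`, `q^3 = f(c) / f(a)`, `f(x) = (1 - x^2) / x^2`,
is the function field of `E^3 / μ_3`, where `E` is the elliptic curve `y^2 = x^3 + 1`, with the
coordinates `a = 1 / y_2`, `b = 1 / y_1`, `c = 1 / y_3`, `r = x_1 / x_2`, `q = x_3 / x_2`.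
-/

set_option autoImplicit false

namespace Pool.Agent.KS6_79.CY

open Pool.Agent.H436R3.Fol Pool.Agent.TH202 MvPolynomial

/-- The field `K = ℂ(a, b, c)(r, q)` with its automorphisms and the valuation at `c = 0`. -/
structure Dat3 (K : Type) [Field K] [Algebra ℂ K] where
  a : K
  b : K
  c : K
  r : K
  q : K
  ind : AlgebraicIndependent ℂ ![a, b, c]
  r3 : r ^ 3 * (b ^ 2 * (1 - a ^ 2)) = a ^ 2 * (1 - b ^ 2)
  q3 : q ^ 3 * (c ^ 2 * (1 - a ^ 2)) = a ^ 2 * (1 - c ^ 2)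
  gen : ∀ f : K, ∃ g : Fin 3 → Fin 3 → K,
    (∀ i j, g i j ∈ IntermediateField.adjoin ℂ ({a, b, c} : Set K)) ∧
    f = ∑ i, ∑ j, g i j * (r ^ (i : ℕ) * q ^ (j : ℕ))
  ω : ℂ
  hω : IsPrimitiveRoot ω 3
  σ : K →ₐ[ℂ] K
  σa : σ a = a
  σb : σ b = b
  σc : σ c = c
  σr : σ r = algebraMap ℂ K ω * r
  σq : σ q = q
  τ : K →ₐ[ℂ] K
  τa : τ a = a
  τb : τ b = b
  τc : τ c = c
  τr : τ r = r
  τq : τ q = algebraMap ℂ K ω * q
  vS : DVal K
  vSab : ∀ p : MvPolynomial (Fin 2) ℂ, p ≠ 0 → vS.ord (aeval ![a, b] p) = 0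
  vSc : vS.ord c = 3
  vSu : ∀ v : DVal K, (∀ p : MvPolynomial (Fin 2) ℂ, p ≠ 0 → v.ord (aeval ![a, b] p) = 0) →
    0 < v.ord c → ∀ f, f ≠ 0 → v.ord f = vS.ord f

variable {K : Type} [Field K] [Algebra ℂ K]

/-- The foliation is given by the partial derivatives with respect to `a, b, c`. -/
def IsPd (d : Dat3 K) (T : Foliation K 3) : Prop :=
  ∀ i j, T.D i (![d.a, d.b, d.c] j) = if i = j then 1 else 0

/-- `v` is trivial on `ℂ(a, b)` and `c` has a zero. -/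
def IsS (d : Dat3 K) (v : DVal K) : Prop :=
  (∀ q : MvPolynomial (Fin 2) ℂ, q ≠ 0 → v.ord (aeval ![d.a, d.b] q) = 0) ∧ 0 < v.ord d.c

end Pool.Agent.KS6_79.CY
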