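import Mathlib
import Pool.Graph.R_seed8.TH202.Defs
import Pool.Graph.R_seed8.TH202.Ex
import Pool.Agent.KS6_79.CY.Dat3

/-!
# The variety and the divisors of the example
-/

set_option autoImplicit false

namespace Pool.Agent.KS6_79.CY

open Pool.Agent.H436R3.Fol Pool.Agent.TH202 MvPolynomial

variable {K : Type} [Field K] [Algebra ℂ K]

/-- The `y`-coordinates of a Fibonacci sequence of points of the elliptic curve `y^2 = x^3 + 1`. -/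
structure Sq3 (d : Dat3 K) where
  y : ℕ → K
  D : ℕ → K
  y_ne : ∀ k, y k ≠ 0
  D_ne : ∀ k, D k ≠ 0
  y1 : y 1 = d.b⁻¹
  y2 : y 2 = d.a⁻¹
  par : ∀ (k : ℕ) (V : ValuationSubring K), (∀ z : ℂ, algebraMap ℂ K z ∈ V) →
    ∀ t0 t1 t2 t3 : K, Gen V t0 (y k) → Gen V t1 (y (k + 1)) → Gen V t2 (y (k + 2)) →
      Gen V t3 (y (k + 3)) → t3 * t0 * D k * (t2 ^ 2 * t1 ^ 2)⁻¹ ∈ V ∧
        (t3 * t0 * D k * (t2 ^ 2 * t1 ^ 2)⁻¹)⁻¹ ∈ V
  fil : ∀ k, 1 ≤ k → ∀ v : DVal K, 0 < v.ord d.c → v.ord (y (k + 1)) = -v.ord d.c →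
    v.ord (y k) = -v.ord d.c → v.ord d.c ≤ v.ord d.a ∧ v.ord d.c ≤ v.ord d.b
  ind : ∀ k, 1 ≤ k → AlgebraicIndependent ℂ ![(y (k + 1))⁻¹, (y k)⁻¹, d.c]
  alg : ∀ k, 1 ≤ k → ∀ f : K,
    IsAlgebraic (Algebra.adjoin ℂ (Set.range ![(y (k + 1))⁻¹, (y k)⁻¹, d.c])) f
  triv : ∀ v : DVal K, IsS d v → ∀ k, v.ord (y k) = 0
  pair : ∀ k, 1 ≤ k → ∀ v : DVal K,
    (∀ q : MvPolynomial (Fin 2) ℂ, q ≠ 0 → v.ord (aeval ![(y (k + 1))⁻¹, (y k)⁻¹] q) = 0) →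
    ∀ q : MvPolynomial (Fin 2) ℂ, q ≠ 0 → v.ord (aeval ![d.a, d.b] q) = 0

/-- The positive part of the minimum of the orders of `a, b, c`: the multiplicity at the origin. -/
noncomputable def mn (d : Dat3 K) (v : DVal K) : ℝ :=
  max 0 (min (v.ord d.a : ℝ) (min (v.ord d.b : ℝ) (v.ord d.c : ℝ)))

/-- The b-divisor of the strict transform of `c = 0` in the blow-up of the origin. -/
noncomputable def Sb (d : Dat3 K) (v : DVal K) : ℝ := 1 / 3 * (ps (v.ord d.c) - mn d v)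

/-- The homogeneous coordinates of the blow-up of `P^1 × P^1 × P^1` at the origin. -/
noncomputable def xi (d : Dat3 K) : Fin 10 → K :=
  ![d.a, d.b, d.c, d.a ^ 2, d.b ^ 2, d.c ^ 2, d.a ^ 2 * d.b ^ 2, d.b ^ 2 * d.c ^ 2,
    d.a ^ 2 * d.c ^ 2, d.a ^ 2 * d.b ^ 2 * d.c ^ 2]

theorem Dat3.a_ne (d : Dat3 K) : d.a ≠ 0 := d.ind.ne_zero 0
theorem Dat3.b_ne (d : Dat3 K) : d.b ≠ 0 := d.ind.ne_zero 1
theorem Dat3.c_ne (d : Dat3 K) : d.c ≠ 0 := d.ind.ne_zero 2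

theorem xi_ne (d : Dat3 K) : ∀ j, xi d j ≠ 0 := by
  have ha := d.a_ne
  have hb := d.b_ne
  have hc := d.c_ne
  intro j
  fin_cases j <;> simp [xi, ha, hb, hc]

/-- Algebraicity over the ratios of the homogeneous coordinates. -/
def XiAlg (d : Dat3 K) : Prop :=
  ∀ i, ∀ f : K, IsAlgebraic (Algebra.adjoin ℂ (Set.range fun j => xi d j / xi d i)) f

/-- The variety `X`: the normalization in `K` of the blow-up of `P^1 × P^1 × P^1` at the origin. -/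
noncomputable def Xd (d : Dat3 K) (h : XiAlg d) : Model K where
  n := 9
  ξ := xi d
  ne := xi_ne d
  alg := h

/-- The b-divisor `max (0, -v(y_k))`. -/
noncomputable def Th {d : Dat3 K} (s : Sq3 d) (k : ℕ) : DVal K → ℝ := Lin (m := 1) ![1, s.y k]

/-- The b-divisors `A_k`. -/
noncomputable def Ak {d : Dat3 K} (s : Sq3 d) (k : ℕ) : DVal K → ℝ := Th s (k + 1) + Th s k

/-- The irrational nef class. -/
noncomputable def bet {d : Dat3 K} (s : Sq3 d) : DVal K → ℝ := Ak s 2 - kap • Ak s 1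

end Pool.Agent.KS6_79.CY
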