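import Mathlib
import Pool.Agent.KS6_79.CY.Ex3
import Pool.Graph.R_seed8.TH573.C8_BPF

set_option autoImplicit false

namespace Pool.Agent.KS6_79.CY.BPF

open Pool.Agent.H436R3.Fol Pool.Agent.TH202 Pool.Agent.TH573.C8_BPF

variable {K : Type} [Field K] [Algebra ℂ K]

theorem step {d : Dat3 K} {X : Model K} (s : Sq3 d) (x : Pt X) (k : ℕ)
    (h1 : St x (s.y (k + 1))) (h2 : St x (s.y (k + 2))) :
    St x (s.y (k + 3)) ∧ St x (s.y k) := by
  obtain ⟨t1, n1, g1⟩ := h1.gen (s.y_ne _)
  obtain ⟨t2, n2, g2⟩ := h2.gen (s.y_ne _)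
  have := local_loc x
  have := closed_loc x
  have hD := s.D_ne k
  have hg : t2 ^ 2 * t1 ^ 2 / s.D k ≠ 0 :=
    div_ne_zero (mul_ne_zero (pow_ne_zero _ n2) (pow_ne_zero _ n1)) hD
  refine main x.loc.toSubring (s.y_ne (k + 3)) (s.y_ne k) hg ?_
  intro V hV t3 t0 g3 g0
  have h := s.par k V (fun z => hV (x.loc.algebraMap_mem z)) t0 t1 t2 t3 g0 (g1 V hV) (g2 V hV) g3
  have e : t3 * t0 / (t2 ^ 2 * t1 ^ 2 / s.D k) = t3 * t0 * s.D k * (t2 ^ 2 * t1 ^ 2)⁻¹ := by
    field_simp
  rw [e]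
  exact h

theorem st_of_free {X : Model K} {y : K} (h : IsFree X (m := 1) ![1, y]) (x : Pt X) : St x y := by
  obtain ⟨k, hk⟩ := h.2 x
  fin_cases k
  · left
    have := hk 1
    simpa using this
  · right
    have := hk 0
    simpa using this

/-- The functions `y_k` are morphisms from `X` to `P^1`. -/
theorem free_y {d : Dat3 K} (X : Model K) (ha : IsFree X (m := 1) ![1, d.a])
    (hb : IsFree X (m := 1) ![1, d.b]) (s : Sq3 d) (k : ℕ) : IsFree X (m := 1) ![1, s.y k] := by
  refine ⟨?_, fun x => ?_⟩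
  · intro j
    fin_cases j
    · exact one_ne_zero
    · exact s.y_ne k
  · have h1 : St x (s.y 1) := by
      rw [s.y1]; exact (st_of_free hb x).inv
    have h2 : St x (s.y 2) := by
      rw [s.y2]; exact (st_of_free ha x).inv
    have all : ∀ n : ℕ, St x (s.y n) ∧ St x (s.y (n + 1)) ∧ St x (s.y (n + 2)) := by
      intro n
      induction n with
      | zero => exact ⟨(step s x 0 h1 h2).2, h1, h2⟩
      | succ n ih => exact ⟨ih.2.1, ih.2.2, (step s x n ih.2.1 ih.2.2).1⟩
    rcases (all k).1 with h | h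
    · refine ⟨0, fun j => ?_⟩
      fin_cases j
      · have h1 : x.Mem (1 : K) := x.mem_of_R (one_mem _)
        simpa using h1
      · simpa using h
    · refine ⟨1, fun j => ?_⟩
      fin_cases j
      · simpa using h
      · have h1 : x.Mem (1 : K) := x.mem_of_R (one_mem _)
        have e : s.y k / s.y k = 1 := div_self (s.y_ne k)
        simpa [e] using h1

end Pool.Agent.KS6_79.CY.BPF
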