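import Mathlib
import Pool.Agent.KS6_79.CY.Ex3
import Pool.Graph.R_seed8.TH152.C8E.F

/-!
# The canonical orders at the prime divisors: the setting
-/

set_option autoImplicit false

namespace Pool.Agent.KS6_79.CY.EX

open Pool.Agent.H436R3.Fol Pool.Agent.TH202 MvPolynomial Pool.Agent.TH152.C8E

variable {K : Type} [Field K] [Algebra ℂ K]

/-- The situation: a triple of rational functions, a valuation of the integral closure, lying over
a prime polynomial. -/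
structure Ctx (d : Dat3 K) (t : Fin 3 → K) (w : DVal K) (π : R3) : Prop where
  inj : Function.Injective (aeval t : R3 →ₐ[ℂ] K)
  fix : ∀ i, d.σ (t i) = t i
  fiy : ∀ i, d.τ (t i) = t i
  frac : ∀ g ∈ IntermediateField.adjoin ℂ ({d.a, d.b, d.c} : Set K),
    ∃ p q : R3, g = aeval t p / aeval t q
  loc : IsLocalRing' (IC t) w
  prime : Prime π
  pos : ∀ q, w.Pos (aeval t q) ↔ π ∣ q

namespace Ctx

variable {d : Dat3 K} {t : Fin 3 → K} {w : DVal K} {π : R3} (H : Ctx d t w π)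

include H

theorem ne {q : R3} (hq : q ≠ 0) : aeval t q ≠ 0 := by
  intro h
  exact hq (H.inj (by rw [h, map_zero]))

theorem reg (q : R3) : w.Reg (aeval t q) := H.loc.1 _ (aeval_mem t q)

theorem ord_nonneg {q : R3} (hq : q ≠ 0) : 0 ≤ w.ord (aeval t q) :=
  w.ord_nonneg (H.ne hq) (H.reg q)

theorem e_pos : 0 < w.ord (aeval t π) :=
  ((H.pos π).2 dvd_rfl).resolve_left (H.ne H.prime.ne_zero)

theorem ord_zero {q : R3} (hq : ¬ π ∣ q) : w.ord (aeval t q) = 0 := by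
  have hq0 : q ≠ 0 := by
    rintro rfl
    exact hq (dvd_zero _)
  have h1 := H.ord_nonneg hq0
  have h2 : ¬ 0 < w.ord (aeval t q) := fun h => hq ((H.pos q).1 (Or.inr h))
  omega

theorem exists_pow {q : R3} (hq : q ≠ 0) : ∃ (m : ℕ) (q' : R3), q = π ^ m * q' ∧ ¬ π ∣ q' ∧
    w.ord (aeval t q) = m * w.ord (aeval t π) := by
  have hfin : FiniteMultiplicity π q := FiniteMultiplicity.of_not_isUnit H.prime.not_isUnit hq
  obtain ⟨q', h1, h2⟩ := hfin.exists_eq_pow_mul_and_not_dvd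
  refine ⟨multiplicity π q, q', h1, h2, ?_⟩
  have hq'0 : q' ≠ 0 := by
    rintro rfl
    exact h2 (dvd_zero _)
  conv_lhs => rw [h1]
  rw [map_mul, map_pow, w.map_mul _ _ (pow_ne_zero _ (H.ne H.prime.ne_zero)) (H.ne hq'0),
    w.ord_pow (H.ne H.prime.ne_zero), H.ord_zero h2, add_zero]

/-- values of polynomials divisible by a power of `π` -/
theorem le_of_dvd {q : R3} (hq : q ≠ 0) {m : ℕ} (h : π ^ m ∣ q) :
    m * w.ord (aeval t π) ≤ w.ord (aeval t q) := by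
  obtain ⟨q', rfl⟩ := h
  have h1 : q' ≠ 0 := right_ne_zero_of_mul hq
  rw [map_mul, map_pow, w.map_mul _ _ (pow_ne_zero _ (H.ne H.prime.ne_zero)) (H.ne h1),
    w.ord_pow (H.ne H.prime.ne_zero)]
  have := H.ord_nonneg h1
  omega

/-- values of elements of the base field are multiples of `e` -/
theorem ord_base {g : K} (hg0 : g ≠ 0)
    (hg : g ∈ IntermediateField.adjoin ℂ ({d.a, d.b, d.c} : Set K)) :
    ∃ z : ℤ, w.ord g = z * w.ord (aeval t π) := by
  obtain ⟨p, q, rfl⟩ := H.frac g hg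
  have hp : p ≠ 0 := by
    rintro rfl
    simp at hg0
  have hq : q ≠ 0 := by
    rintro rfl
    simp at hg0
  obtain ⟨m, -, -, -, hm⟩ := H.exists_pow hp
  obtain ⟨k, -, -, -, hk⟩ := H.exists_pow hq
  refine ⟨m - k, ?_⟩
  rw [w.ord_div (H.ne hp) (H.ne hq), hm, hk]
  ring

end Ctx

/-! ### Decomposition of integral elements -/

theorem mem_base (d : Dat3 K) :
    d.a ∈ IntermediateField.adjoin ℂ ({d.a, d.b, d.c} : Set K) ∧
    d.b ∈ IntermediateField.adjoin ℂ ({d.a, d.b, d.c} : Set K) ∧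
    d.c ∈ IntermediateField.adjoin ℂ ({d.a, d.b, d.c} : Set K) :=
  ⟨IntermediateField.subset_adjoin _ _ (by simp), IntermediateField.subset_adjoin _ _ (by simp),
    IntermediateField.subset_adjoin _ _ (by simp)⟩

/-- the nonvanishing of polynomial expressions -/
theorem dat_ne (d : Dat3 K) {q : R3} (hq : q ≠ 0) : aeval ![d.a, d.b, d.c] q ≠ 0 := by
  intro h
  exact hq (d.ind (by rw [h, map_zero]))

theorem dat_a (d : Dat3 K) : d.a ≠ 0 := by
  have := dat_ne d (X_ne_zero (0 : Fin 3))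
  simpa using this

theorem dat_b (d : Dat3 K) : d.b ≠ 0 := by
  have := dat_ne d (X_ne_zero (1 : Fin 3))
  simpa using this

theorem dat_c (d : Dat3 K) : d.c ≠ 0 := by
  have := dat_ne d (X_ne_zero (2 : Fin 3))
  simpa using this

theorem dat_1a (d : Dat3 K) : 1 - d.a ≠ 0 := by
  have := dat_ne d (X_sub_ne 0 (-1))
  simpa [sub_eq_add_neg] using this

theorem dat_1a' (d : Dat3 K) : 1 + d.a ≠ 0 := by
  have := dat_ne d (X_sub_ne 0 1)
  simpa using this

theorem dat_1b (d : Dat3 K) : 1 - d.b ≠ 0 := by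
  have := dat_ne d (X_sub_ne 1 (-1))
  simpa [sub_eq_add_neg] using this

theorem dat_1b' (d : Dat3 K) : 1 + d.b ≠ 0 := by
  have := dat_ne d (X_sub_ne 1 1)
  simpa using this

theorem dat_a2 (d : Dat3 K) : 1 - d.a ^ 2 ≠ 0 := by
  have : 1 - d.a ^ 2 = (1 - d.a) * (1 + d.a) := by ring
  rw [this]
  exact mul_ne_zero (dat_1a d) (dat_1a' d)

theorem dat_b2 (d : Dat3 K) : 1 - d.b ^ 2 ≠ 0 := by
  have : 1 - d.b ^ 2 = (1 - d.b) * (1 + d.b) := by ring
  rw [this]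
  exact mul_ne_zero (dat_1b d) (dat_1b' d)

theorem dat_1c (d : Dat3 K) : 1 - d.c ≠ 0 := by
  have := dat_ne d (X_sub_ne 2 (-1))
  simpa [sub_eq_add_neg] using this

theorem dat_1c' (d : Dat3 K) : 1 + d.c ≠ 0 := by
  have := dat_ne d (X_sub_ne 2 1)
  simpa using this

theorem dat_c2 (d : Dat3 K) : 1 - d.c ^ 2 ≠ 0 := by
  have : 1 - d.c ^ 2 = (1 - d.c) * (1 + d.c) := by ring
  rw [this]
  exact mul_ne_zero (dat_1c d) (dat_1c' d)

theorem dat_r (d : Dat3 K) : d.r ≠ 0 := by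
  intro h
  have h1 := d.r3
  rw [h] at h1
  have h2 : d.a ^ 2 * (1 - d.b ^ 2) ≠ 0 := mul_ne_zero (pow_ne_zero _ (dat_a d)) (dat_b2 d)
  apply h2
  rw [← h1]
  ring

theorem dat_q (d : Dat3 K) : d.q ≠ 0 := by
  intro h
  have h1 := d.q3
  rw [h] at h1
  have h2 : d.a ^ 2 * (1 - d.c ^ 2) ≠ 0 := mul_ne_zero (pow_ne_zero _ (dat_a d)) (dat_c2 d)
  apply h2
  rw [← h1]
  ring

theorem dat_r3 (d : Dat3 K) : d.r ^ 3 = d.a ^ 2 * (1 - d.b ^ 2) / (d.b ^ 2 * (1 - d.a ^ 2)) := by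
  rw [eq_div_iff (mul_ne_zero (pow_ne_zero _ (dat_b d)) (dat_a2 d))]
  exact d.r3

theorem dat_q3 (d : Dat3 K) : d.q ^ 3 = d.a ^ 2 * (1 - d.c ^ 2) / (d.c ^ 2 * (1 - d.a ^ 2)) := by
  rw [eq_div_iff (mul_ne_zero (pow_ne_zero _ (dat_c d)) (dat_a2 d))]
  exact d.q3

theorem r3_mem (d : Dat3 K) : d.r ^ 3 ∈ IntermediateField.adjoin ℂ ({d.a, d.b, d.c} : Set K) := by
  obtain ⟨ha, hb, -⟩ := mem_base d
  rw [dat_r3 d]
  exact div_mem (mul_mem (pow_mem ha 2) (sub_mem (one_mem _) (pow_mem hb 2)))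
    (mul_mem (pow_mem hb 2) (sub_mem (one_mem _) (pow_mem ha 2)))

theorem q3_mem (d : Dat3 K) : d.q ^ 3 ∈ IntermediateField.adjoin ℂ ({d.a, d.b, d.c} : Set K) := by
  obtain ⟨ha, -, hc⟩ := mem_base d
  rw [dat_q3 d]
  exact div_mem (mul_mem (pow_mem ha 2) (sub_mem (one_mem _) (pow_mem hc 2)))
    (mul_mem (pow_mem hc 2) (sub_mem (one_mem _) (pow_mem ha 2)))

/-- The fixed field of an endomorphism. -/
def fixF (σ : K →ₐ[ℂ] K) : IntermediateField ℂ K where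
  carrier := {g | σ g = g}
  mul_mem' := fun {x y} hx hy => by
    simp only [Set.mem_ofPred_eq] at hx hy ⊢
    rw [map_mul, hx, hy]
  one_mem' := map_one _
  add_mem' := fun {x y} hx hy => by
    simp only [Set.mem_ofPred_eq] at hx hy ⊢
    rw [map_add, hx, hy]
  zero_mem' := map_zero _
  algebraMap_mem' := fun c => σ.commutes c
  inv_mem' := fun x hx => by
    simp only [Set.mem_ofPred_eq] at hx ⊢
    rw [map_inv₀]
    exact congrArg _ hx

theorem fix_of (d : Dat3 K) (σ : K →ₐ[ℂ] K) (ha : σ d.a = d.a) (hb : σ d.b = d.b)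
    (hc : σ d.c = d.c) {g : K}
    (hg : g ∈ IntermediateField.adjoin ℂ ({d.a, d.b, d.c} : Set K)) : σ g = g := by
  have h : IntermediateField.adjoin ℂ ({d.a, d.b, d.c} : Set K) ≤ fixF σ := by
    rw [IntermediateField.adjoin_le_iff]
    rintro x (rfl | rfl | rfl)
    · exact ha
    · exact hb
    · exact hc
  exact h hg

theorem fix_base (d : Dat3 K) {g : K}
    (hg : g ∈ IntermediateField.adjoin ℂ ({d.a, d.b, d.c} : Set K)) : d.σ g = g :=
  fix_of d d.σ d.σa d.σb d.σc hg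

theorem fiy_base (d : Dat3 K) {g : K}
    (hg : g ∈ IntermediateField.adjoin ℂ ({d.a, d.b, d.c} : Set K)) : d.τ g = g :=
  fix_of d d.τ d.τa d.τb d.τc hg

theorem sigma_mem (σ : K →ₐ[ℂ] K) {t : Fin 3 → K} (hfix : ∀ i, σ (t i) = t i) {f : K}
    (hf : f ∈ IC t) : σ f ∈ IC t := by
  have hfixA : ∀ x ∈ Algebra.adjoin ℂ (Set.range t), σ x = x := by
    intro x hx
    rw [Algebra.adjoin_range_eq_range_aeval] at hx
    obtain ⟨q, rfl⟩ := hx
    change σ (aeval t q) = aeval t q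
    rw [← AlgHom.comp_apply, MvPolynomial.comp_aeval]
    congr 2
    funext i
    exact hfix i
  obtain ⟨P, hP, hPf⟩ := mem_IC.1 hf
  refine mem_IC.2 ⟨P, hP, ?_⟩
  have h1 := congrArg σ hPf
  rw [map_zero, Polynomial.eval₂_eq_sum_range, map_sum] at h1
  rw [Polynomial.eval₂_eq_sum_range, ← h1]
  refine Finset.sum_congr rfl fun i _ => ?_
  rw [map_mul, map_pow]
  congr 1
  exact (hfixA _ (P.coeff i).2).symm

/-- The eigencomponents of an element of a stable subalgebra. -/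
theorem eig (S : Subalgebra ℂ K) {ω : ℂ} (hω : IsPrimitiveRoot ω 3) (σ : K →ₐ[ℂ] K)
    (hS : ∀ f ∈ S, σ f ∈ S) (h : Fin 3 → K)
    (hh : ∀ i : Fin 3, σ (h i) = algebraMap ℂ K ω ^ (i : ℕ) * h i)
    (hf : ∑ i, h i ∈ S) : ∀ i, h i ∈ S := by
  set o : K := algebraMap ℂ K ω with ho
  have hoo : σ o = o := σ.commutes _
  have e0 : σ (h 0) = h 0 := by rw [hh 0]; simp
  have e1 : σ (h 1) = o * h 1 := by rw [hh 1]; simp
  have e2 : σ (h 2) = o ^ 2 * h 2 := by rw [hh 2]; rfl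
  have hω3 : ω ^ 3 = 1 := hω.pow_eq_one
  have hωs : 1 + ω + ω ^ 2 = 0 := by
    have := hω.geom_sum_eq_zero (by norm_num)
    simpa [Finset.sum_range_succ] using this
  have ho3 : o ^ 3 = 1 := by rw [ho, ← map_pow, hω3, map_one]
  have hos : 1 + o + o ^ 2 = 0 := by
    rw [ho, ← map_pow, ← map_one (algebraMap ℂ K), ← map_add, ← map_add, hωs, map_zero]
  have h3 : (3 : K) ≠ 0 := by
    have : (3 : K) = algebraMap ℂ K 3 := (map_ofNat (algebraMap ℂ K) 3).symm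
    rw [this]
    exact (map_ne_zero _).2 (by norm_num)
  have hc3 : (3 : K)⁻¹ ∈ S := by
    have : (3 : K)⁻¹ = algebraMap ℂ K 3⁻¹ := by rw [map_inv₀, map_ofNat]
    rw [this]
    exact Subalgebra.algebraMap_mem _ _
  have hom : o ∈ S := Subalgebra.algebraMap_mem _ _
  rw [Fin.sum_univ_three] at hf
  have hf1 := hS _ hf
  have hf2 := hS _ hf1
  have s1 : σ (h 0 + h 1 + h 2) = h 0 + o * h 1 + o ^ 2 * h 2 := by
    rw [map_add, map_add, e0, e1, e2]
  have s2 : σ (σ (h 0 + h 1 + h 2)) = h 0 + o ^ 2 * h 1 + o ^ 4 * h 2 := by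
    rw [s1]
    simp only [map_add, map_mul, map_pow, e0, e1, e2, hoo]
    ring
  have k0 : h 0 = (3 : K)⁻¹ * ((h 0 + h 1 + h 2) + σ (h 0 + h 1 + h 2) +
      σ (σ (h 0 + h 1 + h 2))) := by
    rw [s2, s1]
    field_simp
    linear_combination (-h 1) * hos + (-h 2) * (hos + o * ho3)
  have k1 : h 1 = (3 : K)⁻¹ * ((h 0 + h 1 + h 2) + o ^ 2 * σ (h 0 + h 1 + h 2) +
      o * σ (σ (h 0 + h 1 + h 2))) := by
    rw [s2, s1]
    field_simp
    linear_combination (-h 0) * hos + (-2 * h 1) * ho3 + (-h 2) * (hos + (o + o ^ 2) * ho3)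
  have k2 : h 2 = (3 : K)⁻¹ * ((h 0 + h 1 + h 2) + o * σ (h 0 + h 1 + h 2) +
      o ^ 2 * σ (σ (h 0 + h 1 + h 2))) := by
    rw [s2, s1]
    field_simp
    linear_combination (-h 0) * hos + (-h 1) * (hos + o * ho3) +
      (-h 2) * (ho3 + (o ^ 3 + 1) * ho3)
  intro i
  fin_cases i
  · change h 0 ∈ S
    rw [k0]
    exact mul_mem hc3 (add_mem (add_mem hf hf1) hf2)
  · change h 1 ∈ S
    rw [k1]
    exact mul_mem hc3 (add_mem (add_mem hf (mul_mem (pow_mem hom 2) hf1)) (mul_mem hom hf2))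
  · change h 2 ∈ S
    rw [k2]
    exact mul_mem hc3 (add_mem (add_mem hf (mul_mem hom hf1)) (mul_mem (pow_mem hom 2) hf2))

/-- The decomposition of an integral element into eigenvectors. -/
theorem decomp (d : Dat3 K) {t : Fin 3 → K} (hfix : ∀ i, d.σ (t i) = t i)
    (hfiy : ∀ i, d.τ (t i) = t i) {f : K}
    (hf : f ∈ IC t) : ∃ g : Fin 3 → Fin 3 → K,
      (∀ i j, g i j ∈ IntermediateField.adjoin ℂ ({d.a, d.b, d.c} : Set K)) ∧
      f = ∑ i, ∑ j, g i j * (d.r ^ (i : ℕ) * d.q ^ (j : ℕ)) ∧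
      ∀ i j : Fin 3, g i j * (d.r ^ (i : ℕ) * d.q ^ (j : ℕ)) ∈ IC t := by
  obtain ⟨g, hg, hfg⟩ := d.gen f
  refine ⟨g, hg, hfg, ?_⟩
  have h1 : ∀ i : Fin 3, (∑ j, g i j * (d.r ^ (i : ℕ) * d.q ^ (j : ℕ))) ∈ IC t := by
    refine eig (IC t) d.hω d.σ (fun f hf => sigma_mem d.σ hfix hf) _ ?_ (by rw [← hfg]; exact hf)
    intro i
    rw [map_sum, Finset.mul_sum]
    refine Finset.sum_congr rfl fun j _ => ?_
    rw [map_mul, map_mul, map_pow, map_pow, fix_base d (hg i j), d.σr, d.σq]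
    ring
  intro i
  refine eig (IC t) d.hω d.τ (fun f hf => sigma_mem d.τ hfiy hf) _ ?_ (h1 i)
  intro j
  rw [map_mul, map_mul, map_pow, map_pow, fiy_base d (hg i j), d.τr, d.τq]
  ring

end Pool.Agent.KS6_79.CY.EX
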