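import Mathlib
import Pool.Agent.KS6_79.CY.EX_A

/-!
# Derivations that preserve the valuation ring
-/

set_option autoImplicit false

namespace Pool.Agent.KS6_79.CY.EX

open Pool.Agent.H436R3.Fol Pool.Agent.TH202 MvPolynomial Pool.Agent.TH152.C8E

variable {K : Type} [Field K] [Algebra ℂ K]

/-- the criterion for a derivation to preserve the valuation ring -/
theorem preserves_crit {d : Dat3 K} {t : Fin 3 → K} {w : DVal K} {π : R3} (H : Ctx d t w π)
    (D : Derivation ℂ K K)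
    (h : ∀ f : K, f ≠ 0 → ∀ F : R3, f ^ 3 = aeval t F →
      ∀ g ∈ IntermediateField.adjoin ℂ ({d.a, d.b, d.c} : Set K), ∀ i j : ℕ,
      f = g * (d.r ^ i * d.q ^ j) → w.Reg (D f)) : Preserves w D := by
  refine preserves_of w H.loc fun f hf => ?_
  obtain ⟨g, hg, hfg, hgI⟩ := decomp d H.fix H.fiy hf
  have key : ∀ i j : Fin 3, w.Reg (D (g i j * (d.r ^ (i : ℕ) * d.q ^ (j : ℕ)))) := by
    intro i j
    by_cases h0 : g i j * (d.r ^ (i : ℕ) * d.q ^ (j : ℕ)) = 0
    · rw [h0, map_zero]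
      exact w.reg_zero
    have hmem : (g i j * (d.r ^ (i : ℕ) * d.q ^ (j : ℕ))) ^ 3 ∈
        IntermediateField.adjoin ℂ ({d.a, d.b, d.c} : Set K) := by
      have : (g i j * (d.r ^ (i : ℕ) * d.q ^ (j : ℕ))) ^ 3 =
          g i j ^ 3 * ((d.r ^ 3) ^ (i : ℕ) * (d.q ^ 3) ^ (j : ℕ)) := by
        rw [mul_pow, mul_pow, ← pow_mul, ← pow_mul, ← pow_mul, ← pow_mul, mul_comm (i : ℕ) 3,
          mul_comm (j : ℕ) 3]
      rw [this]
      exact mul_mem (pow_mem (hg i j) 3) (mul_mem (pow_mem (r3_mem d) _) (pow_mem (q3_mem d) _))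
    obtain ⟨p, q, hpq⟩ := H.frac _ hmem
    obtain ⟨F, hF⟩ := of_integral H.inj (pow_mem (hgI i j) 3) hpq
    exact h _ h0 F hF (g i j) (hg i j) i j rfl
  rw [hfg, map_sum]
  refine Finset.sum_induction _ w.Reg (fun _ _ => w.reg_add) w.reg_zero fun i _ => ?_
  rw [map_sum]
  exact Finset.sum_induction _ w.Reg (fun _ _ => w.reg_add) w.reg_zero fun j _ => key i j

section est

variable {d : Dat3 K} {t : Fin 3 → K} {w : DVal K} {π : R3} (H : Ctx d t w π)
  {D : Derivation ℂ K K} {u : Fin 3 → R3} (hD : ∀ i, D (t i) = aeval t (u i))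

include H hD

theorem est {f : K} (hf : f ≠ 0) {F : R3} (hF : f ^ 3 = aeval t F) (hDf : D f ≠ 0) :
    ∃ m : ℕ, 3 * w.ord f = m * w.ord (aeval t π) ∧ mkDerivation ℂ u F ≠ 0 ∧
      w.ord (D f) = w.ord (aeval t (mkDerivation ℂ u F)) - 2 * w.ord f ∧
      π ^ (m - 1) ∣ mkDerivation ℂ u F ∧ (π ∣ mkDerivation ℂ u π → π ^ m ∣ mkDerivation ℂ u F) := by
  have hF0 : F ≠ 0 := by
    rintro rfl
    rw [map_zero] at hF
    exact hf (pow_eq_zero_iff (by norm_num) |>.1 hF)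
  obtain ⟨m, q', hq', -, hm⟩ := H.exists_pow hF0
  have h3 : (3 : K) ≠ 0 := by
    have : (3 : K) = algebraMap ℂ K 3 := (map_ofNat (algebraMap ℂ K) 3).symm
    rw [this]
    exact (map_ne_zero _).2 (by norm_num)
  have h30 : w.ord (3 : K) = 0 := by
    have : (3 : K) = algebraMap ℂ K 3 := (map_ofNat (algebraMap ℂ K) 3).symm
    rw [this]
    exact w.const 3 (by norm_num)
  have e1 : 3 * f ^ 2 * D f = aeval t (mkDerivation ℂ u F) := by
    rw [← der_aeval hD, ← hF, Derivation.leibniz_pow]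
    simp only [nsmul_eq_mul, smul_eq_mul]
    push_cast
    ring
  have hne : 3 * f ^ 2 * D f ≠ 0 := mul_ne_zero (mul_ne_zero h3 (pow_ne_zero _ hf)) hDf
  have hne' : mkDerivation ℂ u F ≠ 0 := by
    intro h
    rw [h, map_zero] at e1
    exact hne e1
  have e2 : mkDerivation ℂ u F = π ^ m * mkDerivation ℂ u q' +
      q' * ((m : R3) * (π ^ (m - 1) * mkDerivation ℂ u π)) := by
    conv_lhs => rw [hq']
    rw [Derivation.leibniz, Derivation.leibniz_pow]
    simp only [nsmul_eq_mul, smul_eq_mul]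
  refine ⟨m, ?_, hne', ?_, ?_, ?_⟩
  · have := w.ord_pow hf 3
    rw [hF, hm] at this
    push_cast at this
    exact this.symm
  · rw [← e1, w.map_mul _ _ (mul_ne_zero h3 (pow_ne_zero _ hf)) hDf,
      w.map_mul _ _ h3 (pow_ne_zero _ hf), h30, w.ord_pow hf]
    push_cast
    ring
  · rw [e2]
    refine dvd_add (Dvd.dvd.mul_right (pow_dvd_pow _ (Nat.sub_le _ _)) _) ?_
    exact Dvd.dvd.mul_left (Dvd.dvd.mul_left (Dvd.dvd.mul_right dvd_rfl _) _) _
  · intro hπ
    rw [e2]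
    refine dvd_add (Dvd.dvd.mul_right dvd_rfl _) ?_
    rcases Nat.eq_zero_or_pos m with h0 | h0
    · rw [h0]
      simp
    · obtain ⟨s, hs⟩ := hπ
      rw [hs]
      refine Dvd.dvd.mul_left (Dvd.dvd.mul_left ?_ _) _
      refine ⟨s, ?_⟩
      rw [← mul_assoc, ← pow_succ, Nat.sub_add_cancel h0]

theorem reg_i (hπ : π ∣ mkDerivation ℂ u π) {f : K} (hf : f ≠ 0) {F : R3}
    (hF : f ^ 3 = aeval t F) : w.Reg (D f) := by
  by_cases hDf : D f = 0
  · rw [hDf]
    exact w.reg_zero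
  obtain ⟨m, h1, h2, h3, -, h5⟩ := est H hD hf hF hDf
  have h6 := H.le_of_dvd h2 (h5 hπ)
  have he := H.e_pos
  have hm : 0 ≤ (m : ℤ) * w.ord (aeval t π) := by positivity
  exact Or.inr (by omega)

theorem reg_ii (hr : w.ord d.r = 0) (hq : w.ord d.q = 0) {f : K} (hf : f ≠ 0) {F : R3}
    (hF : f ^ 3 = aeval t F)
    {g : K} (hg : g ∈ IntermediateField.adjoin ℂ ({d.a, d.b, d.c} : Set K)) {i j : ℕ}
    (hfg : f = g * (d.r ^ i * d.q ^ j)) : w.Reg (D f) := by
  by_cases hDf : D f = 0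
  · rw [hDf]
    exact w.reg_zero
  have hg0 : g ≠ 0 := by
    rintro rfl
    rw [zero_mul] at hfg
    exact hf hfg
  obtain ⟨m, h1, h2, h3, h4, -⟩ := est H hD hf hF hDf
  obtain ⟨z, hz⟩ := H.ord_base hg0 hg
  have h6 := H.le_of_dvd h2 h4
  have h7 := H.ord_nonneg h2
  have he := H.e_pos
  have hfz : w.ord f = z * w.ord (aeval t π) := by
    rw [hfg, w.map_mul _ _ hg0 (mul_ne_zero (pow_ne_zero _ (dat_r d)) (pow_ne_zero _ (dat_q d))),
      w.map_mul _ _ (pow_ne_zero _ (dat_r d)) (pow_ne_zero _ (dat_q d)),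
      w.ord_pow (dat_r d), w.ord_pow (dat_q d), hr, hq, hz]
    ring
  have hmz : (m : ℤ) = 3 * z := by
    rw [hfz] at h1
    have : (3 * z) * w.ord (aeval t π) = m * w.ord (aeval t π) := by
      rw [← h1]
      ring
    exact (mul_right_cancel₀ he.ne' this).symm
  refine Or.inr ?_
  rw [h3, hfz]
  rcases Nat.eq_zero_or_pos m with h0 | h0
  · have hz0 : z = 0 := by omega
    rw [hz0]
    simpa using h7
  · have hz1 : 1 ≤ z := by omega
    have e : ((m - 1 : ℕ) : ℤ) = 3 * z - 1 := by omega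
    rw [e] at h6
    nlinarith

theorem reg_iii {ρ : K} (hρ : ρ ≠ 0) (hρe : 3 * w.ord ρ = w.ord (aeval t π))
    (hall : ∀ q, π ∣ mkDerivation ℂ u q) {f : K} (hf : f ≠ 0) {F : R3}
    (hF : f ^ 3 = aeval t F) : w.Reg (ρ⁻¹ * D f) := by
  by_cases hDf : D f = 0
  · rw [hDf, mul_zero]
    exact w.reg_zero
  obtain ⟨m, h1, h2, h3, -, h5⟩ := est H hD hf hF hDf
  have h6 := H.le_of_dvd h2 (h5 (hall π))
  have h7 := H.le_of_dvd h2 (m := 1) (by rw [pow_one]; exact hall F)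
  have he := H.e_pos
  refine Or.inr ?_
  rw [w.map_mul _ _ (inv_ne_zero hρ) hDf, w.ord_inv hρ]
  push_cast at h7
  rcases Nat.eq_zero_or_pos m with h0 | h0
  · rw [h0] at h1 h6
    push_cast at h1 h6
    omega
  · have hm : (1 : ℤ) ≤ m := by omega
    have : w.ord (aeval t π) ≤ m * w.ord (aeval t π) := by nlinarith
    omega

theorem reg_iv {ρ : K} (hρ : ρ ≠ 0) (hρe : 3 * w.ord ρ = -2 * w.ord (aeval t π))
    {f : K} (hf : f ≠ 0) {F : R3}
    (hF : f ^ 3 = aeval t F) : w.Reg (ρ⁻¹ * D f) := by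
  by_cases hDf : D f = 0
  · rw [hDf, mul_zero]
    exact w.reg_zero
  obtain ⟨m, h1, h2, h3, h4, -⟩ := est H hD hf hF hDf
  have h6 := H.le_of_dvd h2 h4
  have h7 := H.ord_nonneg h2
  have he := H.e_pos
  refine Or.inr ?_
  rw [w.map_mul _ _ (inv_ne_zero hρ) hDf, w.ord_inv hρ]
  rcases Nat.eq_zero_or_pos m with h0 | h0
  · rw [h0] at h1
    push_cast at h1
    omega
  · have hm : (1 : ℤ) ≤ m := by omega
    have e : ((m - 1 : ℕ) : ℤ) = m - 1 := by omega
    rw [e] at h6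
    have : w.ord (aeval t π) ≤ m * w.ord (aeval t π) := by nlinarith
    have e2 : ((m : ℤ) - 1) * w.ord (aeval t π) = m * w.ord (aeval t π) - w.ord (aeval t π) := by
      ring
    omega

end est

theorem frac_of {d : Dat3 K} {t : Fin 3 → K}
    (ha : d.a ∈ IntermediateField.adjoin ℂ (Set.range t))
    (hb : d.b ∈ IntermediateField.adjoin ℂ (Set.range t))
    (hc : d.c ∈ IntermediateField.adjoin ℂ (Set.range t)) :
    ∀ g ∈ IntermediateField.adjoin ℂ ({d.a, d.b, d.c} : Set K),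
      ∃ p q : R3, g = aeval t p / aeval t q := by
  intro g hg
  have h : IntermediateField.adjoin ℂ ({d.a, d.b, d.c} : Set K) ≤
      IntermediateField.adjoin ℂ (Set.range t) := by
    rw [IntermediateField.adjoin_le_iff]
    rintro x (rfl | rfl | rfl)
    · exact ha
    · exact hb
    · exact hc
  exact (IntermediateField.mem_adjoin_range_iff ℂ t g).1 (h hg)

theorem algebraic_of {d : Dat3 K} {t : Fin 3 → K}
    (hfrac : ∀ g ∈ IntermediateField.adjoin ℂ ({d.a, d.b, d.c} : Set K),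
      ∃ p q : R3, g = aeval t p / aeval t q) :
    Algebra.IsAlgebraic (Algebra.adjoin ℂ (Set.range t)) K := by
  have h1 : ∀ g ∈ IntermediateField.adjoin ℂ ({d.a, d.b, d.c} : Set K),
      IsAlgebraic (Algebra.adjoin ℂ (Set.range t)) g := by
    intro g hg
    obtain ⟨p, q, rfl⟩ := hfrac g hg
    have hp : IsAlgebraic (Algebra.adjoin ℂ (Set.range t)) (aeval t p) :=
      isAlgebraic_algebraMap (⟨aeval t p, aeval_mem_adjoin t p⟩ : Algebra.adjoin ℂ (Set.range t))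
    have hq : IsAlgebraic (Algebra.adjoin ℂ (Set.range t)) (aeval t q) :=
      isAlgebraic_algebraMap (⟨aeval t q, aeval_mem_adjoin t q⟩ : Algebra.adjoin ℂ (Set.range t))
    rw [div_eq_mul_inv]
    exact hp.mul hq.inv
  have hr : IsAlgebraic (Algebra.adjoin ℂ (Set.range t)) d.r :=
    (h1 _ (r3_mem d)).of_pow (by norm_num)
  have hq : IsAlgebraic (Algebra.adjoin ℂ (Set.range t)) d.q :=
    (h1 _ (q3_mem d)).of_pow (by norm_num)
  refine ⟨fun f => ?_⟩
  obtain ⟨g, hg, rfl⟩ := d.gen f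
  have hs : ∀ h : Fin 3 → K, (∀ i, IsAlgebraic (Algebra.adjoin ℂ (Set.range t)) (h i)) →
      IsAlgebraic (Algebra.adjoin ℂ (Set.range t)) (∑ i, h i) := by
    intro h hh
    rw [Fin.sum_univ_three]
    exact ((hh 0).add (hh 1)).add (hh 2)
  exact hs _ fun i => hs _ fun j => (h1 _ (hg i j)).mul ((hr.pow _).mul (hq.pow _))

theorem inj_of {d : Dat3 K} {t : Fin 3 → K}
    (hfrac : ∀ g ∈ IntermediateField.adjoin ℂ ({d.a, d.b, d.c} : Set K),
      ∃ p q : R3, g = aeval t p / aeval t q) :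
    Function.Injective (aeval t : R3 →ₐ[ℂ] K) := by
  have := algebraic_of hfrac
  have h := Algebra.IsAlgebraic.isTranscendenceBasis_of_le_trdeg_of_finite (R := ℂ) t
    (d.ind.cardinalMk_le_trdeg)
  exact h.1

theorem Ctx.of {d : Dat3 K} {t : Fin 3 → K} {w : DVal K} {π : R3}
    (hbase : ∀ i, t i ∈ IntermediateField.adjoin ℂ ({d.a, d.b, d.c} : Set K))
    (ha : d.a ∈ IntermediateField.adjoin ℂ (Set.range t))
    (hb : d.b ∈ IntermediateField.adjoin ℂ (Set.range t))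
    (hc : d.c ∈ IntermediateField.adjoin ℂ (Set.range t))
    (hw : IsLocalRing' (IC t) w) (hπ : Prime π)
    (hpos : ∀ q, w.Pos (aeval t q) ↔ π ∣ q) : Ctx d t w π where
  inj := inj_of (frac_of ha hb hc)
  fix := fun i => fix_base d (hbase i)
  fiy := fun i => fiy_base d (hbase i)
  frac := frac_of ha hb hc
  loc := hw
  prime := hπ
  pos := hpos

theorem Ctx.of_dvd {d : Dat3 K} {t : Fin 3 → K} {w : DVal K} {π P : R3} (H : Ctx d t w π)
    (hP : Prime P) (h : π ∣ P) : Ctx d t w P where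
  inj := H.inj
  fix := H.fix
  fiy := H.fiy
  frac := H.frac
  loc := H.loc
  prime := hP
  pos := fun q => by
    rw [H.pos q]
    exact (((H.prime.dvd_prime_iff_associated hP).1 h).dvd_iff_dvd_left)

section tri

variable {d : Dat3 K} {t : Fin 3 → K} {w : DVal K} {π : R3} (H : Ctx d t w π)

include H

theorem ord_X (i : Fin 3) (h : ¬ π ∣ X i) : w.ord (t i) = 0 := by
  have := H.ord_zero h
  rwa [aeval_X] at this

theorem ord_L1 (i : Fin 3) (h : ¬ π ∣ L i 1) : w.ord (1 + t i) = 0 := by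
  have := H.ord_zero h
  rwa [aeval_L, map_one, one_mul] at this

theorem ord_L2 (i : Fin 3) (h : ¬ π ∣ L i (-1)) : w.ord (1 - t i) = 0 := by
  have := H.ord_zero h
  rwa [aeval_L, map_neg, map_one, neg_one_mul, ← sub_eq_add_neg] at this

theorem trich : (∀ j, Z w (t j)) ∨ ∃ i, (∀ j, j ≠ i → Z w (t j)) ∧
    ((Ctx d t w (X i) ∧ w.ord (1 - t i) = 0 ∧ w.ord (1 + t i) = 0) ∨
      (Ctx d t w (L i (-1)) ∧ w.ord (t i) = 0 ∧ w.ord (1 + t i) = 0) ∨
      (Ctx d t w (L i 1) ∧ w.ord (t i) = 0 ∧ w.ord (1 - t i) = 0)) := by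
  by_cases h1 : ∃ i, π ∣ X i
  · obtain ⟨i, hi⟩ := h1
    have H' := H.of_dvd (X_prime (i := i)) hi
    have hL : ∀ j s, ¬ (X i : R3) ∣ L j s := fun j s =>
      not_dvd_of_eval 0 (by simp) (by rw [eval_L]; simp)
    right
    refine ⟨i, fun j hj => ⟨ord_X H' j ?_, ord_L2 H' j (hL j _), ord_L1 H' j (hL j _)⟩,
      Or.inl ⟨H', ord_L2 H' i (hL i _), ord_L1 H' i (hL i _)⟩⟩
    exact not_dvd_of_eval (Function.update 1 i 0) (by simp) (by simp [Function.update_of_ne hj])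
  push Not at h1
  by_cases h2 : ∃ i, π ∣ L i (-1)
  · obtain ⟨i, hi⟩ := h2
    have H' := H.of_dvd (prime_L i (-1) (by norm_num)) hi
    set x : Fin 3 → ℂ := Function.update (fun _ => 2) i 1 with hx
    have hxi : x i = 1 := by simp [hx]
    have hxj : ∀ j, j ≠ i → x j = 2 := fun j hj => by simp [hx, Function.update_of_ne hj]
    have h0 : eval x (L i (-1)) = 0 := by
      rw [eval_L, hxi]
      norm_num
    right
    refine ⟨i, fun j hj => ⟨ord_X H' j ?_, ord_L2 H' j ?_, ord_L1 H' j ?_⟩,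
      Or.inr (Or.inl ⟨H', ord_X H' i ?_, ord_L1 H' i ?_⟩)⟩
    · exact not_dvd_of_eval x h0 (by rw [eval_X, hxj j hj]; norm_num)
    · exact not_dvd_of_eval x h0 (by rw [eval_L, hxj j hj]; norm_num)
    · exact not_dvd_of_eval x h0 (by rw [eval_L, hxj j hj]; norm_num)
    · exact not_dvd_of_eval x h0 (by rw [eval_X, hxi]; norm_num)
    · exact not_dvd_of_eval x h0 (by rw [eval_L, hxi]; norm_num)
  push Not at h2
  by_cases h3 : ∃ i, π ∣ L i 1
  · obtain ⟨i, hi⟩ := h3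
    have H' := H.of_dvd (prime_L i 1 (by norm_num)) hi
    set x : Fin 3 → ℂ := Function.update (fun _ => 2) i (-1) with hx
    have hxi : x i = -1 := by simp [hx]
    have hxj : ∀ j, j ≠ i → x j = 2 := fun j hj => by simp [hx, Function.update_of_ne hj]
    have h0 : eval x (L i 1) = 0 := by
      rw [eval_L, hxi]
      norm_num
    right
    refine ⟨i, fun j hj => ⟨ord_X H' j ?_, ord_L2 H' j ?_, ord_L1 H' j ?_⟩,
      Or.inr (Or.inr ⟨H', ord_X H' i ?_, ord_L2 H' i ?_⟩)⟩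
    · exact not_dvd_of_eval x h0 (by rw [eval_X, hxj j hj]; norm_num)
    · exact not_dvd_of_eval x h0 (by rw [eval_L, hxj j hj]; norm_num)
    · exact not_dvd_of_eval x h0 (by rw [eval_L, hxj j hj]; norm_num)
    · exact not_dvd_of_eval x h0 (by rw [eval_X, hxi]; norm_num)
    · exact not_dvd_of_eval x h0 (by rw [eval_L, hxi]; norm_num)
  push Not at h3
  exact Or.inl fun j => ⟨ord_X H j (h1 j), ord_L2 H j (h2 j), ord_L1 H j (h3 j)⟩

end tri

section pres

variable {d : Dat3 K} {t : Fin 3 → K} {w : DVal K} {π : R3} (H : Ctx d t w π)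
  {D : Derivation ℂ K K} {u : Fin 3 → R3} (hD : ∀ i, D (t i) = aeval t (u i))

include H hD

theorem pres_i (hπ : mkDerivation ℂ u π = 0) : Preserves w D :=
  preserves_crit H D fun _ hf _ hF _ _ _ _ _ => reg_i H hD (by rw [hπ]; exact dvd_zero _) hf hF

theorem pres_ii (hr : w.ord d.r = 0) (hq : w.ord d.q = 0) : Preserves w D :=
  preserves_crit H D fun _ hf _ hF _ hg _ _ hfg => reg_ii H hD hr hq hf hF hg hfg

theorem pres_iii {ρ : K} (hρ : ρ ≠ 0) (hρe : 3 * w.ord ρ = w.ord (aeval t π))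
    (hall : ∀ i, π ∣ u i) : Preserves w (ρ⁻¹ • D) :=
  preserves_crit H (ρ⁻¹ • D) fun _ hf _ hF _ _ _ _ _ => by
    rw [Derivation.smul_apply, smul_eq_mul]
    exact reg_iii H hD hρ hρe (dvd_mkDer hall) hf hF

theorem pres_iv {ρ : K} (hρ : ρ ≠ 0) (hρe : 3 * w.ord ρ = -2 * w.ord (aeval t π)) :
    Preserves w (ρ⁻¹ • D) :=
  preserves_crit H (ρ⁻¹ • D) fun _ hf _ hF _ _ _ _ _ => by
    rw [Derivation.smul_apply, smul_eq_mul]
    exact reg_iv H hD hρ hρe hf hF

end pres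


end Pool.Agent.KS6_79.CY.EX
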