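import Mathlib
import Pool.Agent.KS6_79.CY.EX_B

/-!
# The canonical orders at the prime divisors
-/

set_option autoImplicit false

namespace Pool.Agent.KS6_79.CY.EX

open Pool.Agent.H436R3.Fol Pool.Agent.TH202 MvPolynomial Pool.Agent.TH152.C8E

variable {K : Type} [Field K] [Algebra ℂ K]

/-- The three coordinates. -/
def xx (d : Dat3 K) : Fin 3 → K := ![d.a, d.b, d.c]

theorem xx_ne (d : Dat3 K) (i : Fin 3) : xx d i ≠ 0 := by
  fin_cases i
  · exact dat_a d
  · exact dat_b d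
  · exact dat_c d

theorem xx_1 (d : Dat3 K) (i : Fin 3) : 1 - xx d i ≠ 0 := by
  fin_cases i
  · exact dat_1a d
  · exact dat_1b d
  · exact dat_1c d

theorem xx_1' (d : Dat3 K) (i : Fin 3) : 1 + xx d i ≠ 0 := by
  fin_cases i
  · exact dat_1a' d
  · exact dat_1b' d
  · exact dat_1c' d

theorem xx_2 (d : Dat3 K) (i : Fin 3) : 1 - xx d i ^ 2 ≠ 0 := by
  have : 1 - xx d i ^ 2 = (1 - xx d i) * (1 + xx d i) := by ring
  rw [this]
  exact mul_ne_zero (xx_1 d i) (xx_1' d i)

theorem ord_x2 (d : Dat3 K) (w : DVal K) (i : Fin 3) : w.ord (1 - xx d i ^ 2) =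
    w.ord (1 - xx d i) + w.ord (1 + xx d i) := by
  rw [← w.map_mul _ _ (xx_1 d i) (xx_1' d i)]
  congr 1
  ring

/-- The factors. -/
noncomputable def rho (d : Dat3 K) : Fin 3 → K := ![d.r⁻¹, d.r, d.q]

theorem rho_ne (d : Dat3 K) (i : Fin 3) : rho d i ≠ 0 := by
  fin_cases i
  · exact inv_ne_zero (dat_r d)
  · exact dat_r d
  · exact dat_q d

theorem ord_r (d : Dat3 K) (w : DVal K) :
    3 * w.ord d.r + (2 * w.ord (xx d 1) + w.ord (1 - xx d 0 ^ 2)) =
    2 * w.ord (xx d 0) + w.ord (1 - xx d 1 ^ 2) := by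
  have h := congrArg w.ord d.r3
  rw [w.map_mul _ _ (pow_ne_zero _ (dat_r d)) (mul_ne_zero (pow_ne_zero _ (dat_b d)) (dat_a2 d)),
    w.map_mul _ _ (pow_ne_zero _ (dat_b d)) (dat_a2 d),
    w.map_mul _ _ (pow_ne_zero _ (dat_a d)) (dat_b2 d), w.ord_pow (dat_r d),
    w.ord_pow (dat_a d), w.ord_pow (dat_b d)] at h
  push_cast at h
  exact h

theorem ord_q (d : Dat3 K) (w : DVal K) :
    3 * w.ord d.q + (2 * w.ord (xx d 2) + w.ord (1 - xx d 0 ^ 2)) =
    2 * w.ord (xx d 0) + w.ord (1 - xx d 2 ^ 2) := by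
  have h := congrArg w.ord d.q3
  rw [w.map_mul _ _ (pow_ne_zero _ (dat_q d)) (mul_ne_zero (pow_ne_zero _ (dat_c d)) (dat_a2 d)),
    w.map_mul _ _ (pow_ne_zero _ (dat_c d)) (dat_a2 d),
    w.map_mul _ _ (pow_ne_zero _ (dat_a d)) (dat_c2 d), w.ord_pow (dat_q d),
    w.ord_pow (dat_a d), w.ord_pow (dat_c d)] at h
  push_cast at h
  exact h

theorem rho_ord (d : Dat3 K) (w : DVal K) (i : Fin 3)
    (h : ∀ j, j ≠ i → w.ord (xx d j) = 0 ∧ w.ord (1 - xx d j ^ 2) = 0) :
    3 * w.ord (rho d i) = w.ord (1 - xx d i ^ 2) - 2 * w.ord (xx d i) := by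
  have h1 := ord_r d w
  have h2 := ord_q d w
  have h3 := w.ord_inv (dat_r d)
  fin_cases i
  · obtain ⟨e1, e2⟩ := h 1 (by decide)
    change 3 * w.ord d.r⁻¹ = w.ord (1 - xx d 0 ^ 2) - 2 * w.ord (xx d 0)
    omega
  · obtain ⟨e1, e2⟩ := h 0 (by decide)
    change 3 * w.ord d.r = w.ord (1 - xx d 1 ^ 2) - 2 * w.ord (xx d 1)
    omega
  · obtain ⟨e1, e2⟩ := h 0 (by decide)
    change 3 * w.ord d.q = w.ord (1 - xx d 2 ^ 2) - 2 * w.ord (xx d 2)
    omega

theorem rq_zero (d : Dat3 K) (w : DVal K)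
    (h : ∀ j, w.ord (1 - xx d j ^ 2) = 2 * w.ord (xx d j)) : w.ord d.r = 0 ∧ w.ord d.q = 0 := by
  have h1 := ord_r d w
  have h2 := ord_q d w
  have e0 := h 0
  have e1 := h 1
  have e2 := h 2
  constructor <;> omega

theorem ctx_one (d : Dat3 K) {t : Fin 3 → K} (ht : ∀ i, t i = xx d i ∨ t i = (xx d i)⁻¹)
    {w : DVal K} (hw : IsLocalRing' (IC t) w) {π : R3} (hπ : Prime π)
    (hpos : ∀ q, w.Pos (aeval t q) ↔ π ∣ q) : Ctx d t w π := by
  obtain ⟨mA, mB, mC⟩ := mem_base d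
  refine Ctx.of ?_ ?_ ?_ ?_ hw hπ hpos
  · intro i
    refine mem_of_inv (ht i) ?_
    fin_cases i
    · exact mA
    · exact mB
    · exact mC
  · exact mem_of_inv' (ht 0) (IntermediateField.subset_adjoin _ _ ⟨0, rfl⟩)
  · exact mem_of_inv' (ht 1) (IntermediateField.subset_adjoin _ _ ⟨1, rfl⟩)
  · exact mem_of_inv' (ht 2) (IntermediateField.subset_adjoin _ _ ⟨2, rfl⟩)

theorem pd (d : Dat3 K) {T : Foliation K 3} (hT : IsPd d T) (i j : Fin 3) :
    T.D i (xx d j) = if i = j then 1 else 0 := hT i j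

theorem canOrd_of (d : Dat3 K) (T : Foliation K 3) (hT : IsPd d T) (w : DVal K) (y : Fin 3 → K)
    (hy : ∀ i, y i ≠ 0) (hp : ∀ i, Preserves w (y i • T.D i)) (a' : Fin 3 → K)
    (ha' : ∀ i, a' i = xx d i ∨ a' i = 1 - xx d i ∨ a' i = 1 + xx d i)
    (hn : ∑ i, w.ord (y i) ≤ ∑ i, w.ord (a' i) - 1 ∨
      ((∀ i, w.ord (a' i) = 0) ∧ ∑ i, w.ord (y i) ≤ 0)) :
    IsCanOrd T w (∑ i, w.ord (y i)) := by
  have h0 : ∀ i, a' i ≠ 0 := by
    intro i
    rcases ha' i with h | h | h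
    · rw [h]; exact xx_ne d i
    · rw [h]; exact xx_1 d i
    · rw [h]; exact xx_1' d i
  have hs : ∀ k, ∃ s : K, (s = 1 ∨ s = -1) ∧ ∀ i, T.D i (a' k) = if i = k then s else 0 := by
    intro k
    rcases ha' k with h | h | h
    · exact ⟨1, Or.inl rfl, fun i => by rw [h]; exact pd d hT i k⟩
    · refine ⟨-1, Or.inr rfl, fun i => ?_⟩
      rw [h, map_sub, Derivation.map_one_eq_zero, pd d hT i k]
      split_ifs <;> ring
    · refine ⟨1, Or.inl rfl, fun i => ?_⟩
      rw [h, map_add, Derivation.map_one_eq_zero, pd d hT i k]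
      split_ifs <;> ring
  choose s hs1 hs2 using hs
  have hs0 : ∀ k, s k ≠ 0 ∧ w.ord (s k) = 0 := by
    intro k
    rcases hs1 k with h | h
    · rw [h]
      exact ⟨one_ne_zero, w.ord_one⟩
    · rw [h]
      exact ⟨neg_ne_zero.2 one_ne_zero, by rw [w.ord_neg one_ne_zero, w.ord_one]⟩
  have hJ : (Matrix.of fun j k => T.D j (a' k)).det = s 0 * s 1 * s 2 := by
    rw [Matrix.det_fin_three]
    simp [hs2]
  have hJ0 : s 0 * s 1 * s 2 ≠ 0 :=
    mul_ne_zero (mul_ne_zero (hs0 0).1 (hs0 1).1) (hs0 2).1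
  have hJw : w.ord (s 0 * s 1 * s 2) = 0 := by
    rw [w.map_mul _ _ (mul_ne_zero (hs0 0).1 (hs0 1).1) (hs0 2).1,
      w.map_mul _ _ (hs0 0).1 (hs0 1).1, (hs0 0).2, (hs0 1).2, (hs0 2).2]
    rfl
  refine isCanOrd_of (Matrix.diagonal y) ?_ ?_ ?_ ?_
  · rw [Matrix.det_diagonal]
    exact Finset.prod_ne_zero_iff.2 fun i _ => hy i
  · intro i
    have : ∑ j, Matrix.diagonal y i j • T.D j = y i • T.D i := by
      rw [Finset.sum_eq_single i]
      · rw [Matrix.diagonal_apply_eq]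
      · intro j _ hj
        rw [Matrix.diagonal_apply_ne _ hj.symm, zero_smul]
      · intro h
        exact absurd (Finset.mem_univ _) h
    rw [this]
    exact hp i
  · rw [Matrix.det_diagonal, w.ord_prod _ _ fun i _ => hy i]
  · intro A hA0 hA
    rcases hn with hn | ⟨e, hn⟩
    · have := Pool.Agent.W497.Mld.gji w T.D A hA0 hA a' h0 (by rw [hJ]; exact hJ0)
      rw [hJ, hJw] at this
      omega
    · have := Pool.Agent.W497.Mld.gji_zero w T.D A hA0 hA a' h0
        (by rw [hJ]; exact hJ0) e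
      rw [hJ, hJw] at this
      omega

section one

variable (d : Dat3 K) {T : Foliation K 3} (hT : IsPd d T) {t : Fin 3 → K}
  (ht : ∀ i, t i = xx d i ∨ t i = (xx d i)⁻¹)

include hT ht

theorem EE (j i : Fin 3) : ((1 - xx d j ^ 2) • T.D j) (t i) =
    aeval t ((Pi.single j (1 - X j ^ 2) : Fin 3 → R3) i) := by
  rw [Derivation.smul_apply, smul_eq_mul]
  by_cases h : i = j
  · subst h
    rw [Pi.single_eq_same, der_sq (xx_ne d i) (ht i) (by rw [pd d hT, if_pos rfl]), map_sub,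
      map_one, map_pow, aeval_X]
  · rw [Pi.single_eq_of_ne h, der_zero (ht i) (by rw [pd d hT, if_neg (Ne.symm h)]), map_zero,
      mul_zero]

end one

theorem zz (d : Dat3 K) {t : Fin 3 → K} (ht : ∀ i, t i = xx d i ∨ t i = (xx d i)⁻¹) {w : DVal K}
    {j : Fin 3} (hz : Z w (t j)) : w.ord (xx d j) = 0 ∧ w.ord (1 - xx d j ^ 2) = 0 := by
  obtain ⟨z1, z2, z3⟩ := hz
  have h1 := inv_vals w (ht j) (xx_ne d j) (xx_1 d j) (xx_1' d j)
  have h2 := ord_x2 d w j
  constructor <;> omega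

theorem act (d : Dat3 K) (T : Foliation K 3) (hT : IsPd d T) {t : Fin 3 → K}
    (ht : ∀ i, t i = xx d i ∨ t i = (xx d i)⁻¹) {w : DVal K} {i : Fin 3}
    (hz : ∀ j, j ≠ i → Z w (t j))
    (hp : ∀ j, j ≠ i → Preserves w ((1 - xx d j ^ 2) • T.D j)) {yi : K} (hyi : yi ≠ 0)
    (hpi : Preserves w (yi • T.D i)) {ai : K} (hai : ai = xx d i ∨ ai = 1 - xx d i ∨ ai = 1 + xx d i)
    (hb : w.ord yi ≤ w.ord ai - 1) (hnum : 3 * w.ord yi = 2 * w.ord (1 - xx d i ^ 2) +
      2 * w.ord (xx d i)) :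
    (∃ j, w.ord (xx d j) ≤ 0) ∧ ∃ n : ℤ, IsCanOrd T w n ∧
      3 * n = ∑ j, (2 * w.ord (1 - xx d j ^ 2) + 2 * w.ord (xx d j)) := by
  classical
  obtain ⟨j0, hj0⟩ : ∃ j : Fin 3, j ≠ i := exists_ne i
  refine ⟨⟨j0, (zz d ht (hz j0 hj0)).1.le⟩, ?_⟩
  set y : Fin 3 → K := Function.update (fun j => 1 - xx d j ^ 2) i yi with hy
  set a' : Fin 3 → K := Function.update (xx d) i ai with ha'
  have yi' : y i = yi := Function.update_self _ _ _
  have yj : ∀ j, j ≠ i → y j = 1 - xx d j ^ 2 := fun j hj => Function.update_of_ne hj _ _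
  have ai' : a' i = ai := Function.update_self _ _ _
  have aj : ∀ j, j ≠ i → a' j = xx d j := fun j hj => Function.update_of_ne hj _ _
  have s1 : ∑ j, w.ord (y j) = w.ord yi := by
    rw [Finset.sum_eq_single i, yi']
    · intro j _ hj
      rw [yj j hj]
      exact (zz d ht (hz j hj)).2
    · intro h
      exact absurd (Finset.mem_univ _) h
  have s2 : ∑ j, w.ord (a' j) = w.ord ai := by
    rw [Finset.sum_eq_single i, ai']
    · intro j _ hj
      rw [aj j hj]
      exact (zz d ht (hz j hj)).1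
    · intro h
      exact absurd (Finset.mem_univ _) h
  have s3 : ∑ j, (2 * w.ord (1 - xx d j ^ 2) + 2 * w.ord (xx d j)) =
      2 * w.ord (1 - xx d i ^ 2) + 2 * w.ord (xx d i) := by
    rw [Finset.sum_eq_single i]
    · intro j _ hj
      obtain ⟨e1, e2⟩ := zz d ht (hz j hj)
      rw [e1, e2]
      rfl
    · intro h
      exact absurd (Finset.mem_univ _) h
  refine ⟨∑ j, w.ord (y j), canOrd_of d T hT w y ?_ ?_ a' ?_ (Or.inl ?_), ?_⟩
  · intro j
    by_cases hj : j = i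
    · rw [hj, yi']
      exact hyi
    · rw [yj j hj]
      exact xx_2 d j
  · intro j
    by_cases hj : j = i
    · rw [hj, yi']
      exact hpi
    · rw [yj j hj]
      exact hp j hj
  · intro j
    by_cases hj : j = i
    · rw [hj, ai']
      exact hai
    · rw [aj j hj]
      exact Or.inl rfl
  · rw [s1, s2]
    exact hb
  · rw [s1, s3]
    exact hnum

theorem main_one (d : Dat3 K) (T : Foliation K 3) (hT : IsPd d T) {t : Fin 3 → K}
    (ht : ∀ i, t i = xx d i ∨ t i = (xx d i)⁻¹) (w : DVal K)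
    (hw : IsLocalRing' (IC t) w)
    (hover : ∃ π : MvPolynomial (Fin 3) ℂ, Prime π ∧ ∀ q, w.Pos (aeval t q) ↔ π ∣ q) :
    (∃ j, w.ord (xx d j) ≤ 0) ∧ ∃ n : ℤ, IsCanOrd T w n ∧
      3 * n = ∑ j, (2 * w.ord (1 - xx d j ^ 2) + 2 * w.ord (xx d j)) := by
  obtain ⟨π, hπ, hpos⟩ := hover
  have H := ctx_one d ht hw hπ hpos
  have hE := EE d hT ht
  rcases trich H with hz | ⟨i, hz, hcase⟩
  · have hzz := fun j => zz d ht (hz j)
    obtain ⟨hr, hq⟩ := rq_zero d w fun j => by rw [(hzz j).1, (hzz j).2]; rfl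
    refine ⟨⟨0, (hzz 0).1.le⟩, ∑ j, w.ord (1 - xx d j ^ 2),
      canOrd_of d T hT w (fun j => 1 - xx d j ^ 2) (xx_2 d)
        (fun j => pres_ii H (hE j) hr hq) (xx d) (fun _ => Or.inl rfl)
        (Or.inr ⟨fun j => (hzz j).1, ?_⟩), ?_⟩
    · exact (Finset.sum_eq_zero fun j _ => (hzz j).2).le
    · rw [Finset.sum_eq_zero fun j _ => (hzz j).2, Finset.sum_eq_zero]
      · rfl
      · intro j _
        rw [(hzz j).1, (hzz j).2]
        rfl
  · have hv := inv_vals w (ht i) (xx_ne d i) (xx_1 d i) (xx_1' d i)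
    have hx2 := ord_x2 d w i
    have hrho := rho_ord d w i fun j hj => zz d ht (hz j hj)
    rcases hcase with ⟨H', z2, z3⟩ | ⟨H', z1, z3⟩ | ⟨H', z1, z2⟩
    · -- the zero of `t i`
      have he := H'.e_pos
      have hpj : ∀ j, j ≠ i → Preserves w ((1 - xx d j ^ 2) • T.D j) := fun j hj =>
        pres_i H' (hE j) (mkDer_X_single (Ne.symm hj) _)
      rw [aeval_X] at he
      rcases hv with ⟨hta, v1, v2, v3⟩ | ⟨hta, v1, v2, v3⟩
      · have hP := pres_iv H' (hE i) (rho_ne d i) (by rw [aeval_X]; omega)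
        rw [smul_smul] at hP
        have ho : w.ord ((rho d i)⁻¹ * (1 - xx d i ^ 2)) = - w.ord (rho d i) +
            w.ord (1 - xx d i ^ 2) := by
          rw [w.map_mul _ _ (inv_ne_zero (rho_ne d i)) (xx_2 d i), w.ord_inv (rho_ne d i)]
        refine act d T hT ht hz hpj (mul_ne_zero (inv_ne_zero (rho_ne d i)) (xx_2 d i)) hP
          (Or.inl rfl) ?_ ?_
        · rw [ho]
          omega
        · rw [ho]
          omega
      · obtain ⟨hr, hq⟩ := rq_zero d w fun j => by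
          by_cases hj : j = i
          · subst hj
            omega
          · rw [(zz d ht (hz j hj)).1, (zz d ht (hz j hj)).2]
            rfl
        refine act d T hT ht hz hpj (xx_2 d i) (pres_ii H' (hE i) hr hq)
          (Or.inl rfl) ?_ ?_
        · omega
        · omega
    · have he := H'.e_pos
      have hae : aeval t (L i (-1)) = 1 - t i := by
        rw [aeval_L, map_neg, map_one]
        ring
      rw [hae] at he
      have hpj : ∀ j, j ≠ i → Preserves w ((1 - xx d j ^ 2) • T.D j) := fun j hj =>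
        pres_i H' (hE j) (mkDer_L_single (Ne.symm hj) _ _)
      have hP := pres_iii H' (hE i) (rho_ne d i) (by rw [hae]; omega) (by
        intro k
        by_cases h : k = i
        · subst h
          rw [Pi.single_eq_same]
          refine ⟨1 + X k, ?_⟩
          simp only [L, map_neg, map_one]
          ring
        · rw [Pi.single_eq_of_ne h]
          exact dvd_zero _)
      rw [smul_smul] at hP
      have ho : w.ord ((rho d i)⁻¹ * (1 - xx d i ^ 2)) = - w.ord (rho d i) +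
          w.ord (1 - xx d i ^ 2) := by
        rw [w.map_mul _ _ (inv_ne_zero (rho_ne d i)) (xx_2 d i), w.ord_inv (rho_ne d i)]
      refine act d T hT ht hz hpj (mul_ne_zero (inv_ne_zero (rho_ne d i)) (xx_2 d i)) hP
        (Or.inr (Or.inl rfl)) ?_ ?_
      · rw [ho]
        omega
      · rw [ho]
        omega
    · have he := H'.e_pos
      have hae : aeval t (L i 1) = 1 + t i := by
        rw [aeval_L, map_one]
        ring
      rw [hae] at he
      have hpj : ∀ j, j ≠ i → Preserves w ((1 - xx d j ^ 2) • T.D j) := fun j hj =>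
        pres_i H' (hE j) (mkDer_L_single (Ne.symm hj) _ _)
      have hP := pres_iii H' (hE i) (rho_ne d i) (by rw [hae]; omega) (by
        intro k
        by_cases h : k = i
        · subst h
          rw [Pi.single_eq_same]
          refine ⟨1 - X k, ?_⟩
          simp only [L, map_one]
          ring
        · rw [Pi.single_eq_of_ne h]
          exact dvd_zero _)
      rw [smul_smul] at hP
      have ho : w.ord ((rho d i)⁻¹ * (1 - xx d i ^ 2)) = - w.ord (rho d i) +
          w.ord (1 - xx d i ^ 2) := by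
        rw [w.map_mul _ _ (inv_ne_zero (rho_ne d i)) (xx_2 d i), w.ord_inv (rho_ne d i)]
      refine act d T hT ht hz hpj (mul_ne_zero (inv_ne_zero (rho_ne d i)) (xx_2 d i)) hP
        (Or.inr (Or.inr rfl)) ?_ ?_
      · rw [ho]
        omega
      · rw [ho]
        omega

end Pool.Agent.KS6_79.CY.EX
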