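import Mathlib
import Pool.Agent.KS6_79.CY.Dat3
import Pool.Graph.R_seed8.TH922.C8_DAT
import Pool.Graph.R_seed8.TH189.C8_VS
import Pool.Graph.R_seed8.TH969.C8_EXT
import Pool.Graph.R_seed8.TH986.C8_GKLT

/-!
# The existence of the function field
-/

set_option autoImplicit false

namespace Pool.Agent.KS6_79.CY

open Pool.Agent.H436R3.Fol Pool.Agent.TH202 MvPolynomial

namespace Exist

variable {K : Type} [Field K] [Algebra ℂ K]

theorem trA (d : Dat K) : Transcendental ℂ d.a := d.ind.transcendental 0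
theorem trC (d : Dat K) : Transcendental ℂ d.c := d.ind.transcendental 2

theorem sq_ne {x : K} (hx : Transcendental ℂ x) : 1 - x ^ 2 ≠ 0 := by
  intro h0
  apply hx
  refine ⟨1 - Polynomial.X ^ 2, ?_, ?_⟩
  · intro h1
    have h2 := congrArg (fun p : Polynomial ℂ => p.coeff 0) h1
    simp at h2
  · simpa using h0

theorem a_ne (d : Dat K) : d.a ≠ 0 := d.ind.ne_zero 0
theorem c_ne (d : Dat K) : d.c ≠ 0 := d.ind.ne_zero 2

/-- The element whose cube root is adjoined. -/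
noncomputable def uu (d : Dat K) : K := d.a ^ 2 * (1 - d.c ^ 2) / (d.c ^ 2 * (1 - d.a ^ 2))

theorem den_ne (d : Dat K) : d.c ^ 2 * (1 - d.a ^ 2) ≠ 0 :=
  mul_ne_zero (pow_ne_zero _ (c_ne d)) (sq_ne (trA d))

theorem uu_mul (d : Dat K) : uu d * (d.c ^ 2 * (1 - d.a ^ 2)) = d.a ^ 2 * (1 - d.c ^ 2) :=
  div_mul_cancel₀ _ (den_ne d)

theorem uu_ne (d : Dat K) : uu d ≠ 0 := by
  intro h
  have h1 := uu_mul d
  rw [h, zero_mul] at h1
  exact mul_ne_zero (pow_ne_zero _ (a_ne d)) (sq_ne (trC d)) h1.symm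

theorem ord_uu (d : Dat K) {v : DVal K} (hv : Pool.Agent.TH202.IsS d v) (hc : v.ord d.c = 1) :
    v.ord (uu d) = -2 := by
  have h1 := congrArg v.ord (uu_mul d)
  have ha : v.ord d.a = 0 := by
    have := hv.1 (X 0) (X_ne_zero _)
    rwa [aeval_X] at this
  have ha2 : v.ord (1 - d.a ^ 2) = 0 := by
    have := hv.1 (1 - X 0 ^ 2) (by
      intro h
      have h2 := congrArg (MvPolynomial.eval (fun _ => (0 : ℂ))) h
      simp at h2)
    simpa using this
  have hc2 : v.ord (1 - d.c ^ 2) = 0 := by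
    have h3 : v.ord (-(d.c ^ 2)) = 2 := by
      rw [v.ord_neg (pow_ne_zero _ (c_ne d)), v.ord_pow (c_ne d), hc]
      norm_num
    have h4 := (Pool.Agent.TH986.C8_GKLT.ord_add_eq v (f := 1) (g := -(d.c ^ 2)) one_ne_zero
      (neg_ne_zero.2 (pow_ne_zero _ (c_ne d))) (by rw [v.ord_one, h3]; norm_num)).2
    rwa [v.ord_one, ← sub_eq_add_neg] at h4
  rw [v.map_mul _ _ (uu_ne d) (den_ne d), v.map_mul _ _ (pow_ne_zero _ (c_ne d)) (sq_ne (trA d)),
    v.map_mul _ _ (pow_ne_zero _ (a_ne d)) (sq_ne (trC d)), v.ord_pow (c_ne d),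
    v.ord_pow (a_ne d), ha, ha2, hc2, hc] at h1
  push_cast at h1
  omega

theorem not_cube (d : Dat K) (s : K) : s ^ 3 ≠ uu d := by
  obtain ⟨v, hv, hc, -⟩ := Pool.Agent.TH189.C8_VS.exists_vS d
  intro h
  have hs : s ≠ 0 := by
    rintro rfl
    exact uu_ne d (by rw [← h]; norm_num)
  have h1 := ord_uu d hv hc
  rw [← h, v.ord_pow hs] at h1
  push_cast at h1
  omega

/-- The cubic polynomial. -/
noncomputable abbrev f3 (d : Dat K) : Polynomial K := Polynomial.X ^ 3 - Polynomial.C (uu d)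

instance irr (d : Dat K) : Fact (Irreducible (f3 d)) :=
  ⟨X_pow_sub_C_irreducible_of_prime Nat.prime_three (not_cube d)⟩

/-- The field. -/
abbrev LL (d : Dat K) : Type := AdjoinRoot (f3 d)

theorem f3_monic (d : Dat K) : (f3 d).Monic := Polynomial.monic_X_pow_sub_C _ (by norm_num)

theorem f3_deg (d : Dat K) : (f3 d).natDegree = 3 := Polynomial.natDegree_X_pow_sub_C

instance fin (d : Dat K) : Module.Finite K (LL d) := (f3_monic d).finite_adjoinRoot

instance ess [Algebra.EssFiniteType ℂ K] (d : Dat K) : Algebra.EssFiniteType ℂ (LL d) :=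
  Algebra.EssFiniteType.comp ℂ K (LL d)

/-- The cube root. -/
noncomputable def qq (d : Dat K) : LL d := AdjoinRoot.root (f3 d)

theorem qq3 (d : Dat K) : qq d ^ 3 = algebraMap K (LL d) (uu d) := by
  have h := AdjoinRoot.eval₂_root (f3 d)
  rw [Polynomial.eval₂_sub, Polynomial.eval₂_pow, Polynomial.eval₂_X, Polynomial.eval₂_C,
    sub_eq_zero] at h
  exact h

theorem qq_ne (d : Dat K) : qq d ≠ 0 := by
  intro h
  have h1 := qq3 d
  rw [h, zero_pow (by norm_num)] at h1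
  exact uu_ne d ((map_eq_zero _).1 h1.symm)

/-- The decomposition over the base field. -/
theorem dec (d : Dat K) (f : LL d) : ∃ g : Fin 3 → K,
    f = ∑ j : Fin 3, algebraMap K (LL d) (g j) * qq d ^ (j : ℕ) := by
  obtain ⟨p, rfl⟩ := AdjoinRoot.mk_surjective f
  refine ⟨fun j => (p %ₘ f3 d).coeff j, ?_⟩
  have h1 : AdjoinRoot.mk (f3 d) p = AdjoinRoot.mk (f3 d) (p %ₘ f3 d) := by
    have h2 := Polynomial.modByMonic_add_div p (f3 d)
    conv_lhs => rw [← h2]
    rw [map_add, map_mul, AdjoinRoot.mk_self, zero_mul, add_zero]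
  have h3 : (p %ₘ f3 d).natDegree < 3 := by
    have := Polynomial.natDegree_modByMonic_lt p (f3_monic d) (by
      intro h
      have := f3_deg d
      rw [h] at this
      simp at this)
    rwa [f3_deg] at this
  have h4 := Polynomial.as_sum_range_C_mul_X_pow' (p := p %ₘ f3 d) h3
  rw [h1]
  conv_lhs => rw [h4]
  rw [Finset.sum_range_succ, Finset.sum_range_succ, Finset.sum_range_one, Fin.sum_univ_three]
  simp only [map_add, map_mul, map_pow, pow_zero, mul_one, pow_one, AdjoinRoot.mk_X,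
    AdjoinRoot.mk_C]
  change _ = AdjoinRoot.of (f3 d) ((p %ₘ f3 d).coeff 0) * AdjoinRoot.root (f3 d) ^ 0 +
    AdjoinRoot.of (f3 d) ((p %ₘ f3 d).coeff 1) * AdjoinRoot.root (f3 d) ^ 1 +
    AdjoinRoot.of (f3 d) ((p %ₘ f3 d).coeff 2) * AdjoinRoot.root (f3 d) ^ 2
  rw [pow_zero, pow_one, mul_one]

section val

variable {L : Type} [Field L] [Algebra ℂ L] (v : DVal L)

/-- The order is larger than `m`. -/
def Gt (m : ℤ) (x : L) : Prop := x = 0 ∨ m < v.ord x

theorem gt_add {m : ℤ} {x y : L} (hx : Gt v m x) (hy : Gt v m y) : Gt v m (x + y) := by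
  rcases hx with rfl | hx
  · rw [zero_add]
    exact hy
  rcases hy with rfl | hy
  · rw [add_zero]
    exact Or.inr hx
  by_cases hx0 : x = 0
  · rw [hx0, zero_add]
    exact Or.inr hy
  by_cases hy0 : y = 0
  · rw [hy0, add_zero]
    exact Or.inr hx
  by_cases h : x + y = 0
  · exact Or.inl h
  · exact Or.inr ((lt_min hx hy).trans_le (v.map_add x y hx0 hy0 h))

theorem ord_of_gt {m : ℤ} {x y : L} (hx : x ≠ 0) (hm : v.ord x = m) (hy : Gt v m y) :
    v.ord (x + y) = m := by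
  rcases hy with rfl | hy
  · rw [add_zero, hm]
  · by_cases hy0 : y = 0
    · rw [hy0, add_zero, hm]
    · rw [(Pool.Agent.TH986.C8_GKLT.ord_add_eq v hx hy0 (by rw [hm]; exact hy)).2, hm]

theorem gt_sum {m : ℤ} {ι : Type} (s : Finset ι) (x : ι → L) (h : ∀ i ∈ s, Gt v m (x i)) :
    Gt v m (∑ i ∈ s, x i) :=
  Finset.sum_induction _ (Gt v m) (fun _ _ => gt_add v) (Or.inl rfl) h

end val

theorem ord_qq (d : Dat K) {vS : DVal K} (hS : Pool.Agent.TH202.IsS d vS) (hc : vS.ord d.c = 1)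
    {e : ℕ} {v : DVal (LL d)}
    (hv : ∀ x : K, x ≠ 0 → v.ord (algebraMap K (LL d) x) = e * vS.ord x) :
    3 * v.ord (qq d) = -2 * e := by
  have h1 := congrArg v.ord (qq3 d)
  rw [v.ord_pow (qq_ne d), hv _ (uu_ne d), ord_uu d hS hc] at h1
  push_cast at h1
  omega

theorem val_uni (d : Dat K) {vS : DVal K} (hS : Pool.Agent.TH202.IsS d vS) (hc : vS.ord d.c = 1)
    {e : ℕ} (he : 0 < e) {f : LL d} (hf : f ≠ 0) : ∃ (a : ℤ) (j : ℕ), ∀ v : DVal (LL d),
      (∀ x : K, x ≠ 0 → v.ord (algebraMap K (LL d) x) = e * vS.ord x) →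
      v.ord f = e * a + j * v.ord (qq d) := by
  classical
  obtain ⟨g, hg⟩ := dec d f
  have hJ : (Finset.univ.filter fun j : Fin 3 => g j ≠ 0).Nonempty := by
    by_contra hne
    rw [Finset.not_nonempty_iff_eq_empty, Finset.filter_eq_empty_iff] at hne
    apply hf
    rw [hg]
    refine Finset.sum_eq_zero fun j _ => ?_
    have := hne (Finset.mem_univ j)
    push Not at this
    rw [this, map_zero, zero_mul]
  obtain ⟨j0, hj0, hmin⟩ := Finset.exists_min_image _
    (fun j : Fin 3 => 3 * vS.ord (g j) - 2 * ((j : ℕ) : ℤ)) hJ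
  rw [Finset.mem_filter] at hj0
  refine ⟨vS.ord (g j0), j0, fun v hv => ?_⟩
  have hq := ord_qq d hS hc hv
  have hne : ∀ j, g j ≠ 0 → algebraMap K (LL d) (g j) * qq d ^ (j : ℕ) ≠ 0 := fun j hj =>
    mul_ne_zero ((map_ne_zero _).2 hj) (pow_ne_zero _ (qq_ne d))
  have hval : ∀ j, g j ≠ 0 → v.ord (algebraMap K (LL d) (g j) * qq d ^ (j : ℕ)) =
      e * vS.ord (g j) + ((j : ℕ) : ℤ) * v.ord (qq d) := by
    intro j hj
    rw [v.map_mul _ _ ((map_ne_zero _).2 hj) (pow_ne_zero _ (qq_ne d)), hv _ hj,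
      v.ord_pow (qq_ne d)]
  rw [hg, ← Finset.add_sum_erase _ _ (Finset.mem_univ j0)]
  refine ord_of_gt v (hne j0 hj0.2) (hval j0 hj0.2) (gt_sum v _ _ fun j hj => ?_)
  by_cases hgj : g j = 0
  · left
    rw [hgj, map_zero, zero_mul]
  · right
    rw [hval j hgj]
    have h1 := hmin j (by rw [Finset.mem_filter]; exact ⟨Finset.mem_univ _, hgj⟩)
    have h2 : j ≠ j0 := Finset.ne_of_mem_erase hj
    have h3 : (j : ℕ) ≠ (j0 : ℕ) := fun h => h2 (Fin.ext h)
    have h4 := j.2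
    have h5 := j0.2
    have h6 : 3 * vS.ord (g j0) - 2 * ((j0 : ℕ) : ℤ) < 3 * vS.ord (g j) - 2 * ((j : ℕ) : ℤ) := by
      omega
    have h7 : (e : ℤ) * (3 * vS.ord (g j0) - 2 * ((j0 : ℕ) : ℤ)) <
        e * (3 * vS.ord (g j) - 2 * ((j : ℕ) : ℤ)) :=
      mul_lt_mul_of_pos_left h6 (by exact_mod_cast he)
    nlinarith

theorem e_eq (d : Dat K) {vS : DVal K} (hS : Pool.Agent.TH202.IsS d vS) (hc : vS.ord d.c = 1)
    {e : ℕ} (he : 0 < e) {v : DVal (LL d)}
    (hv : ∀ x : K, x ≠ 0 → v.ord (algebraMap K (LL d) x) = e * vS.ord x) : e = 3 := by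
  obtain ⟨f, hf, hf1⟩ := v.surj
  obtain ⟨a, j, h⟩ := val_uni d hS hc he hf
  have h1 := h v hv
  have hq := ord_qq d hS hc hv
  rw [hf1] at h1
  have h2 : (e : ℤ) * (3 * a - 2 * j) = 3 := by linear_combination (-3) * h1 - (j : ℤ) * hq
  have h3 : (e : ℤ) ∣ 3 := ⟨_, h2.symm⟩
  have h4 : e ∣ 3 := by exact_mod_cast h3
  have h5 : e ≤ 3 := Nat.le_of_dvd (by norm_num) h4
  interval_cases e <;> omega

theorem exists_val (d : Dat K) {vS : DVal K} (hS : Pool.Agent.TH202.IsS d vS)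
    (hc : vS.ord d.c = 1)
    (hu : ∀ v' : DVal K, Pool.Agent.TH202.IsS d v' → ∀ f, f ≠ 0 → v'.ord f = vS.ord f) :
    ∃ v : DVal (LL d), (∀ x : K, x ≠ 0 → v.ord (algebraMap K (LL d) x) = 3 * vS.ord x) ∧
      ∀ v' : DVal (LL d), (∀ p : MvPolynomial (Fin 2) ℂ, p ≠ 0 →
        v'.ord (algebraMap K (LL d) (aeval ![d.a, d.b] p)) = 0) →
        0 < v'.ord (algebraMap K (LL d) d.c) → ∀ f, f ≠ 0 → v'.ord f = v.ord f := by
  obtain ⟨v, e, he, hv⟩ := Pool.Agent.TH969.C8_EXT.exists_ext (Ω := LL d) vS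
  have he3 := e_eq d hS hc he hv
  subst he3
  refine ⟨v, fun x hx => by rw [hv x hx]; rfl, fun v' h1 h2 f hf => ?_⟩
  obtain ⟨w, e', he', hw⟩ := Pool.Agent.TH969.C8_EXT.exists_restrict (F := K) v'
  have hab : ∀ p : MvPolynomial (Fin 2) ℂ, p ≠ 0 → aeval ![d.a, d.b] p ≠ 0 := by
    intro p hp h0
    exact hp (Pool.Agent.TH189.C8_VS.ab_ind d (by rw [h0, map_zero]))
  have hpos : (0 : ℤ) < e' := by exact_mod_cast he'
  have hwS : Pool.Agent.TH202.IsS d w := by
    constructor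
    · intro p hp
      have h3 := hw _ (hab p hp)
      rw [h1 p hp] at h3
      rcases mul_eq_zero.1 h3.symm with h4 | h4
      · omega
      · exact h4
    · have h3 := hw _ (c_ne d)
      rw [h3] at h2
      exact pos_of_mul_pos_right h2 hpos.le
  have hv' : ∀ x : K, x ≠ 0 → v'.ord (algebraMap K (LL d) x) = e' * vS.ord x := fun x hx => by
    rw [hw x hx, hu w hwS x hx]
  have he3 := e_eq d hS hc he' hv'
  subst he3
  obtain ⟨a, j, h⟩ := val_uni d hS hc (by norm_num : 0 < 3) hf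
  rw [h v' hv', h v hv]
  have q1 := ord_qq d hS hc hv
  have q2 := ord_qq d hS hc hv'
  have : v'.ord (qq d) = v.ord (qq d) := by omega
  rw [this]

theorem mem_map {K : Type} [Field K] [Algebra ℂ K] (d : Dat K) {g : K}
    (hg : g ∈ IntermediateField.adjoin ℂ ({d.a, d.b, d.c} : Set K)) :
    algebraMap K (LL d) g ∈ IntermediateField.adjoin ℂ
      ({algebraMap K (LL d) d.a, algebraMap K (LL d) d.b, algebraMap K (LL d) d.c} :
        Set (LL d)) := by
  have hle : IntermediateField.adjoin ℂ ({d.a, d.b, d.c} : Set K) ≤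
      (IntermediateField.adjoin ℂ
      ({algebraMap K (LL d) d.a, algebraMap K (LL d) d.b, algebraMap K (LL d) d.c} :
        Set (LL d))).comap (IsScalarTower.toAlgHom ℂ K (LL d)) := by
    rw [IntermediateField.adjoin_le_iff]
    rintro x (rfl | rfl | rfl)
    · exact IntermediateField.subset_adjoin _ _ (by simp)
    · exact IntermediateField.subset_adjoin _ _ (by simp)
    · exact IntermediateField.subset_adjoin _ _ (by simp)
  exact hle hg

theorem fix_uu (d : Dat K) : d.σ (uu d) = uu d := by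
  rw [uu, map_div₀, map_mul, map_mul, map_sub, map_sub, map_one, map_pow, map_pow, d.σa, d.σc]

theorem evalf (d : Dat K) (i : K →ₐ[ℂ] LL d) (hi : i (uu d) = algebraMap K (LL d) (uu d))
    {x : LL d} (hx : x ^ 3 = algebraMap K (LL d) (uu d)) : (f3 d).eval₂ (i : K →+* LL d) x = 0 := by
  rw [Polynomial.eval₂_sub, Polynomial.eval₂_pow, Polynomial.eval₂_X, Polynomial.eval₂_C, hx]
  change _ - i (uu d) = 0
  rw [hi, sub_self]

end Exist

open Exist in
/-- The field exists. -/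
theorem exists_dat3 : ∃ (L : Type) (_ : Field L) (_ : Algebra ℂ L) (_ : Algebra.EssFiniteType ℂ L),
    Nonempty (Dat3 L) := by
  obtain ⟨K, iF, iA, iE, ⟨d⟩⟩ := Pool.Agent.TH922.C8_DAT.exists_dat
  obtain ⟨vS, hS, hc, hu⟩ := Pool.Agent.TH189.C8_VS.exists_vS d
  obtain ⟨v, hv, hvu⟩ := exists_val d hS hc hu
  let ι : K →ₐ[ℂ] LL d := IsScalarTower.toAlgHom ℂ K (LL d)
  have hι : ∀ x, ι x = algebraMap K (LL d) x := fun _ => rfl
  let σ : LL d →ₐ[ℂ] LL d := AdjoinRoot.liftAlgHom (f3 d) (ι.comp d.σ) (qq d)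
    (evalf d _ (by rw [AlgHom.comp_apply, fix_uu]; rfl) (qq3 d))
  have hσι : ∀ x : K, σ (algebraMap K (LL d) x) = algebraMap K (LL d) (d.σ x) := fun x =>
    AdjoinRoot.liftAlgHom_of _ _ _ _ x
  let τ : LL d →ₐ[ℂ] LL d := AdjoinRoot.liftAlgHom (f3 d) ι (algebraMap ℂ (LL d) d.ω * qq d)
    (evalf d _ rfl (by rw [mul_pow, qq3, ← map_pow, d.hω.pow_eq_one, map_one, one_mul]))
  have hτι : ∀ x : K, τ (algebraMap K (LL d) x) = algebraMap K (LL d) x := fun x =>
    AdjoinRoot.liftAlgHom_of _ _ _ _ x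
  have hvec : (![algebraMap K (LL d) d.a, algebraMap K (LL d) d.b] : Fin 2 → LL d) =
      ι ∘ ![d.a, d.b] := by
    funext i
    fin_cases i <;> rfl
  have hae : ∀ p : MvPolynomial (Fin 2) ℂ,
      aeval ![algebraMap K (LL d) d.a, algebraMap K (LL d) d.b] p =
      algebraMap K (LL d) (aeval ![d.a, d.b] p) := by
    intro p
    rw [hvec]
    exact (MvPolynomial.comp_aeval_apply ![d.a, d.b] ι p).symm
  have hab : ∀ p : MvPolynomial (Fin 2) ℂ, p ≠ 0 → aeval ![d.a, d.b] p ≠ 0 := by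
    intro p hp h0
    exact hp (Pool.Agent.TH189.C8_VS.ab_ind d (by rw [h0, map_zero]))
  refine ⟨LL d, inferInstance, inferInstance, ess d, ⟨{
    a := algebraMap K (LL d) d.a
    b := algebraMap K (LL d) d.b
    c := algebraMap K (LL d) d.c
    r := algebraMap K (LL d) d.r
    q := qq d
    ind := ?_
    r3 := ?_
    q3 := ?_
    gen := ?_
    ω := d.ω
    hω := d.hω
    σ := σ
    σa := by rw [hσι, d.σa]
    σb := by rw [hσι, d.σb]
    σc := by rw [hσι, d.σc]
    σr := by rw [hσι, d.σr, map_mul, ← IsScalarTower.algebraMap_apply]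
    σq := AdjoinRoot.liftAlgHom_root _ _ _ _
    τ := τ
    τa := hτι _
    τb := hτι _
    τc := hτι _
    τr := hτι _
    τq := AdjoinRoot.liftAlgHom_root _ _ _ _
    vS := v
    vSab := ?_
    vSc := ?_
    vSu := ?_ }⟩⟩
  · have h2 := d.ind.map' (f := ι) (algebraMap K (LL d)).injective
    have h3 : ![algebraMap K (LL d) d.a, algebraMap K (LL d) d.b, algebraMap K (LL d) d.c] =
        ι ∘ ![d.a, d.b, d.c] := by
      funext i
      fin_cases i <;> rfl
    rw [h3]
    exact h2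
  · have h := congrArg (algebraMap K (LL d)) d.r3
    simpa only [map_mul, map_sub, map_one, map_pow] using h
  · have h := congrArg (algebraMap K (LL d)) (uu_mul d)
    rw [map_mul, ← qq3] at h
    simpa only [map_mul, map_sub, map_one, map_pow] using h
  · intro f
    obtain ⟨g, hg⟩ := dec d f
    choose g0 h0 g1 h1 g2 h2 hgj using fun j : Fin 3 => d.gen (g j)
    refine ⟨fun i j => algebraMap K (LL d) (![g0 j, g1 j, g2 j] i), fun i j => ?_, ?_⟩
    · apply mem_map
      fin_cases i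
      · exact h0 j
      · exact h1 j
      · exact h2 j
    · rw [hg, Finset.sum_comm]
      refine Finset.sum_congr rfl fun j _ => ?_
      rw [Fin.sum_univ_three, hgj j]
      simp only [map_add, map_mul, map_pow]
      change _ = algebraMap K (LL d) (g0 j) * (algebraMap K (LL d) d.r ^ 0 * qq d ^ (j : ℕ)) +
        algebraMap K (LL d) (g1 j) * (algebraMap K (LL d) d.r ^ 1 * qq d ^ (j : ℕ)) +
        algebraMap K (LL d) (g2 j) * (algebraMap K (LL d) d.r ^ 2 * qq d ^ (j : ℕ))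
      ring
  · intro p hp
    rw [hae, hv _ (hab p hp), hS.1 p hp]
    rfl
  · rw [hv _ (c_ne d), hc]
    rfl
  · intro v' h1 h2 f hf
    exact hvu v' (fun p hp => by rw [← hae]; exact h1 p hp) h2 f hf

end Pool.Agent.KS6_79.CY
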