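import Mathlib
import Pool.Agent.KS6_79.CY.XM2
import Pool.Graph.R_seed8.TH922.C8_DAT
import Pool.Graph.R_seed8.TH986.C8_GKLT

/-!
# The foliations and the discrepancies
-/

set_option autoImplicit false

namespace Pool.Agent.KS6_79.CY

open Pool.Agent.H436R3.Fol Pool.Agent.TH202 MvPolynomial Pool.Agent.W497.Mld
open Pool.Agent.TH922.C8_DAT (kerD mem_kerD)

section der

variable {K : Type} [Field K] [Algebra ℂ K] (d : Dat3 K)

theorem root_der {D : Derivation ℂ K K} {r u w : K} (hr : r ≠ 0) (hu : u ≠ 0) (hDu : D u = 0)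
    (hDw : D w = 0) (h : r ^ 3 * u = w) : D r = 0 := by
  have h2 : D (r ^ 3 * u) = D w := by rw [h]
  rw [hDw, Derivation.leibniz, Derivation.leibniz_pow, hDu, smul_zero, zero_add, smul_eq_mul,
    smul_eq_mul, nsmul_eq_mul] at h2
  have h6 := pow_ne_zero 2 hr
  have : CharZero K := charZero_of_injective_algebraMap (algebraMap ℂ K).injective
  have h8 : ((3 : ℕ) : K) ≠ 0 := by norm_num
  rcases mul_eq_zero.1 h2 with h7 | h7
  · exact absurd h7 hu
  · rcases mul_eq_zero.1 h7 with h9 | h9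
    · exact absurd h9 h8
    · rcases mul_eq_zero.1 h9 with h10 | h10
      · exact absurd h10 h6
      · exact h10

theorem der_zero {D : Derivation ℂ K K} (ha : D d.a = 0) (hb : D d.b = 0) (hc : D d.c = 0) :
    D = 0 := by
  have h1 : IntermediateField.adjoin ℂ ({d.a, d.b, d.c} : Set K) ≤ kerD D := by
    rw [IntermediateField.adjoin_le_iff]
    intro x hx
    rcases hx with rfl | rfl | rfl
    · exact ha
    · exact hb
    · exact hc
  obtain ⟨mA, mB, mC⟩ := EX.mem_base d
  have hr : D d.r = 0 := by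
    refine root_der (EX.dat_r d) (mul_ne_zero (pow_ne_zero _ d.b_ne) (EX.dat_a2 d)) (h1 ?_) (h1 ?_)
      d.r3
    · exact mul_mem (pow_mem mB _) (sub_mem (one_mem _) (pow_mem mA _))
    · exact mul_mem (pow_mem mA _) (sub_mem (one_mem _) (pow_mem mB _))
  have hq : D d.q = 0 := by
    refine root_der (EX.dat_q d) (mul_ne_zero (pow_ne_zero _ d.c_ne) (EX.dat_a2 d)) (h1 ?_) (h1 ?_)
      d.q3
    · exact mul_mem (pow_mem mC _) (sub_mem (one_mem _) (pow_mem mA _))
    · exact mul_mem (pow_mem mA _) (sub_mem (one_mem _) (pow_mem mC _))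
  ext f
  obtain ⟨g, hg, rfl⟩ := d.gen f
  rw [map_sum, Derivation.coe_zero, Pi.zero_apply]
  refine Finset.sum_eq_zero fun i _ => ?_
  rw [map_sum]
  refine Finset.sum_eq_zero fun j _ => ?_
  have k0 : D (g i j) = 0 := h1 (hg i j)
  simp [Derivation.leibniz, Derivation.leibniz_pow, k0, hr, hq]

/-- The partial derivatives exist and span. -/
theorem exists_fol {K : Type} [Field K] [Algebra ℂ K] (d : Dat3 K) :
    ∃ T : Foliation K 3, IsPd d T ∧ T.space = ⊤ := by
  classical
  have : CharZero ℂ := inferInstance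
  have hex : ∀ i : Fin 3, ∃ D : Derivation ℂ K K,
      ∀ j, D (![d.a, d.b, d.c] j) = if i = j then 1 else 0 := fun i =>
    Pool.Agent.H135R2.VS.exists_der d.ind _
  choose P hP using hex
  have hsum : ∀ D : Derivation ℂ K K, D = ∑ i : Fin 3, D (![d.a, d.b, d.c] i) • P i := by
    intro D
    have h : D - ∑ i : Fin 3, D (![d.a, d.b, d.c] i) • P i = 0 := by
      have key : ∀ j : Fin 3, (D - ∑ i : Fin 3, D (![d.a, d.b, d.c] i) • P i)
          (![d.a, d.b, d.c] j) = 0 := by
        intro j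
        rw [Derivation.sub_apply, der_sum_apply]
        simp only [hP, mul_ite, mul_one, mul_zero, Finset.sum_ite_eq', Finset.mem_univ, if_true,
          sub_self]
      exact der_zero d (key 0) (key 1) (key 2)
    exact sub_eq_zero.1 h
  have hspan : Submodule.span K (Set.range P) = ⊤ := by
    rw [eq_top_iff]
    intro D _
    rw [hsum D]
    exact Submodule.sum_mem _ fun i _ => Submodule.smul_mem _ _ (Submodule.subset_span ⟨i, rfl⟩)
  refine ⟨⟨P, ?_, fun i j => ?_⟩, fun i j => hP i j, hspan⟩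
  · rw [Fintype.linearIndependent_iff]
    intro g hg i
    have h := DFunLike.congr_fun hg (![d.a, d.b, d.c] i)
    rw [Derivation.coe_zero, Pi.zero_apply, der_sum_apply] at h
    simpa only [hP, mul_ite, mul_one, mul_zero, Finset.sum_ite_eq', Finset.mem_univ, if_true]
      using h
  · rw [hspan]
    exact Submodule.mem_top

end der

section scl

variable {K : Type} [Field K] [Algebra ℂ K]

theorem span_scl (T : Foliation K 3) (hT : T.space = ⊤) (y : Fin 3 → Kˣ) :
    Submodule.span K (Set.range fun i => (y i : K) • T.D i) = ⊤ := by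
  rw [eq_top_iff, ← hT, Foliation.space, Submodule.span_le]
  rintro _ ⟨i, rfl⟩
  have h1 : T.D i = ((y i)⁻¹ : Kˣ).val • ((y i : K) • T.D i) := by
    rw [smul_smul, Units.inv_mul, one_smul]
  rw [SetLike.mem_coe, h1]
  exact Submodule.smul_mem _ _ (Submodule.subset_span ⟨i, rfl⟩)

/-- The basis of the vector fields with the elements multiplied by functions. -/
noncomputable def scl (T : Foliation K 3) (hT : T.space = ⊤) (y : Fin 3 → Kˣ) : Foliation K 3 where
  D := fun i => (y i : K) • T.D i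
  indep := T.indep.units_smul y
  closed := fun i j => by rw [span_scl T hT y]; exact Submodule.mem_top

theorem scl_space (T : Foliation K 3) (hT : T.space = ⊤) (y : Fin 3 → Kˣ) :
    (scl T hT y).space = ⊤ := span_scl T hT y

theorem scl_sum (T : Foliation K 3) (hT : T.space = ⊤) (y : Fin 3 → Kˣ)
    (A : Matrix (Fin 3) (Fin 3) K) (i : Fin 3) :
    ∑ j, A i j • (scl T hT y).D j =
      ∑ j, (A * Matrix.diagonal fun k => (y k : K)) i j • T.D j := by
  refine Finset.sum_congr rfl fun j _ => ?_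
  rw [Matrix.mul_diagonal]
  change A i j • ((y j : K) • T.D j) = _
  rw [smul_smul]

theorem scl_can {T : Foliation K 3} (hT : T.space = ⊤) (y : Fin 3 → Kˣ) {w : DVal K} {n : ℤ}
    (hn : IsCanOrd T w n) : IsCanOrd (scl T hT y) w (n - w.ord (∏ i, (y i : K))) := by
  have hp : (∏ i, (y i : K)) ≠ 0 := Finset.prod_ne_zero_iff.2 fun i _ => (y i).ne_zero
  have hdet : (Matrix.diagonal fun k => (y k : K)).det = ∏ i, (y i : K) := Matrix.det_diagonal
  obtain ⟨⟨A, hA0, hA, hAn⟩, hl⟩ := hn
  constructor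
  · refine ⟨A * Matrix.diagonal fun k => ((y k)⁻¹ : Kˣ).val, ?_, ?_, ?_⟩
    · rw [Matrix.det_mul, Matrix.det_diagonal]
      exact mul_ne_zero hA0 (Finset.prod_ne_zero_iff.2 fun i _ => Units.ne_zero _)
    · intro i
      rw [scl_sum]
      have : A * (Matrix.diagonal fun k => ((y k)⁻¹ : Kˣ).val) *
          (Matrix.diagonal fun k => (y k : K)) = A := by
        rw [Matrix.mul_assoc, Matrix.diagonal_mul_diagonal]
        have : (Matrix.diagonal fun i => ((y i)⁻¹ : Kˣ).val * (y i : K)) = 1 := by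
          rw [← Matrix.diagonal_one]
          congr 1
          funext i
          exact Units.inv_mul _
        rw [this, mul_one]
      rw [this]
      exact hA i
    · have h1 : (A * Matrix.diagonal fun k => ((y k)⁻¹ : Kˣ).val).det * (∏ i, (y i : K)) =
          A.det := by
        rw [Matrix.det_mul, Matrix.det_diagonal, mul_assoc, ← Finset.prod_mul_distrib]
        simp
      have h2 : (A * Matrix.diagonal fun k => ((y k)⁻¹ : Kˣ).val).det ≠ 0 := by
        rw [Matrix.det_mul, Matrix.det_diagonal]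
        exact mul_ne_zero hA0 (Finset.prod_ne_zero_iff.2 fun i _ => Units.ne_zero _)
      have h3 := w.map_mul _ _ h2 hp
      rw [h1, hAn] at h3
      omega
  · rintro m ⟨B, hB0, hB, hBm⟩
    have h1 : n ≤ w.ord (B * Matrix.diagonal fun k => (y k : K)).det := by
      refine hl ⟨_, ?_, ?_, rfl⟩
      · rw [Matrix.det_mul, hdet]
        exact mul_ne_zero hB0 hp
      · intro i
        rw [← scl_sum T hT y]
        exact hB i
    rw [Matrix.det_mul, hdet, w.map_mul _ _ hB0 hp, hBm] at h1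
    omega

theorem scl_can' {T : Foliation K 3} (hT : T.space = ⊤) (y : Fin 3 → Kˣ) {w : DVal K} {n : ℤ}
    (hn : IsCanOrd (scl T hT y) w n) : IsCanOrd T w (n + w.ord (∏ i, (y i : K))) := by
  have hp : (∏ i, (y i : K)) ≠ 0 := Finset.prod_ne_zero_iff.2 fun i _ => (y i).ne_zero
  have hdet : (Matrix.diagonal fun k => (y k : K)).det = ∏ i, (y i : K) := Matrix.det_diagonal
  obtain ⟨⟨A, hA0, hA, hAn⟩, hl⟩ := hn
  constructor
  · refine ⟨A * Matrix.diagonal fun k => (y k : K), ?_, ?_, ?_⟩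
    · rw [Matrix.det_mul, hdet]
      exact mul_ne_zero hA0 hp
    · intro i
      rw [← scl_sum T hT y]
      exact hA i
    · rw [Matrix.det_mul, hdet, w.map_mul _ _ hA0 hp, hAn]
  · rintro m ⟨B, hB0, hB, hBm⟩
    have h0 : (B * Matrix.diagonal fun k => ((y k)⁻¹ : Kˣ).val).det ≠ 0 := by
      rw [Matrix.det_mul, Matrix.det_diagonal]
      exact mul_ne_zero hB0 (Finset.prod_ne_zero_iff.2 fun i _ => Units.ne_zero _)
    have h1 : n ≤ w.ord (B * Matrix.diagonal fun k => ((y k)⁻¹ : Kˣ).val).det := by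
      refine hl ⟨_, h0, ?_, rfl⟩
      intro i
      rw [scl_sum]
      have : B * (Matrix.diagonal fun k => ((y k)⁻¹ : Kˣ).val) *
          (Matrix.diagonal fun k => (y k : K)) = B := by
        rw [Matrix.mul_assoc, Matrix.diagonal_mul_diagonal]
        have : (Matrix.diagonal fun i => ((y i)⁻¹ : Kˣ).val * (y i : K)) = 1 := by
          rw [← Matrix.diagonal_one]
          congr 1
          funext i
          exact Units.inv_mul _
        rw [this, mul_one]
      rw [this]
      exact hB i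
    have h2 : (B * Matrix.diagonal fun k => ((y k)⁻¹ : Kˣ).val).det * (∏ i, (y i : K)) =
        B.det := by
      rw [Matrix.det_mul, Matrix.det_diagonal, mul_assoc, ← Finset.prod_mul_distrib]
      simp
    have h3 := w.map_mul _ _ h0 hp
    rw [h2, hBm] at h3
    omega

end scl

section disc

variable {K : Type} [Field K] [Algebra ℂ K]

/-- The analysis in the direction of one elliptic curve. -/
theorem loc' (v : DVal K) {x : K} (hx : x ≠ 0) (h1 : 1 - x ≠ 0) (h2 : 1 + x ≠ 0) :
    ∃ (h : K) (s : ℂ), h ≠ 0 ∧ s ^ 2 = 1 ∧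
      (∀ D : Derivation ℂ K K, D h = algebraMap ℂ K s * D x) ∧
      2 * v.ord (1 - x ^ 2) + 2 * v.ord x + v.ord x ≤ 3 * v.ord h ∧
      2 * v.ord (1 - x ^ 2) + 2 * v.ord x ≤ 3 * v.ord h ∧
      (2 * v.ord (1 - x ^ 2) + 2 * v.ord x < 3 * v.ord h ∨
        (v.ord (1 - x ^ 2) = 0 ∧ v.ord x = 0 ∧ v.ord h = 0)) := by
  have hne : (1 - x ^ 2 : K) ≠ 0 := by
    have hfac : (1 - x ^ 2 : K) = (1 - x) * (1 + x) := by ring
    rw [hfac]
    exact mul_ne_zero h1 h2
  by_cases hpos : 0 < v.ord x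
  · have h3 := XM2.ord_sub_sq hx hpos hne
    refine ⟨x, 1, hx, by norm_num, fun D => by rw [map_one, one_mul], ?_, ?_, Or.inl ?_⟩ <;> omega
  · obtain ⟨h, s, hh, hs, hD, hE⟩ := Pool.Agent.TH986.C8_GKLT.loc v hx h1 h2
    have hd : v.ord ((1 - x ^ 2) / x ^ 2) = v.ord (1 - x ^ 2) - 2 * v.ord x := by
      rw [v.ord_div hne (pow_ne_zero _ hx), v.ord_pow hx]
      push_cast
      ring
    rw [hd] at hE
    have hE' : 2 * v.ord (1 - x ^ 2) + 2 * v.ord x < 3 * v.ord h ∨
        (2 * v.ord (1 - x ^ 2) + 2 * v.ord x = 3 * v.ord h ∧ v.ord x = 0 ∧ v.ord h = 0) := by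
      rcases hE with hE | ⟨hE, e1, e2⟩
      · left
        have h3 : ((2 * v.ord (1 - x ^ 2) + 2 * v.ord x : ℤ) : ℝ) < ((3 * v.ord h : ℤ) : ℝ) := by
          push_cast at hE ⊢
          linarith
        exact_mod_cast h3
      · right
        refine ⟨?_, e1, e2⟩
        have h3 : ((2 * v.ord (1 - x ^ 2) + 2 * v.ord x : ℤ) : ℝ) = ((3 * v.ord h : ℤ) : ℝ) := by
          push_cast at hE ⊢
          linarith
        exact_mod_cast h3
    refine ⟨h, s, hh, hs, hD, ?_, ?_, ?_⟩
    · rcases hE' with h3 | ⟨h3, h4, h5⟩ <;> omega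
    · rcases hE' with h3 | ⟨h3, h4, h5⟩ <;> omega
    · rcases hE' with h3 | ⟨h3, h4, h5⟩
      · exact Or.inl h3
      · exact Or.inr ⟨by omega, h4, h5⟩

/-- The lower bounds for the discrepancies. -/
theorem disc (d : Dat3 K) (T : Foliation K 3) (hT : IsPd d T) (v : DVal K) (n : ℤ)
    (hn : IsCanOrd T v n) : 0 ≤ n - v.ord (XM2.gg d) ∧
      v.ord d.c ≤ 3 * (1 + (n - v.ord (XM2.gg d))) := by
  have hgg := XM2.ord_gg d v
  have hex := fun i => loc' v (EX.xx_ne d i) (EX.xx_1 d i) (EX.xx_1' d i)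
  choose h s hh hs hD hE1 hE2 hE3 using hex
  have hs0 : ∀ i, s i ≠ 0 := by
    intro i h0
    have := hs i
    rw [h0] at this
    norm_num at this
  have hdet : (Matrix.of fun (j k : Fin 3) => T.D j (h k)).det =
      algebraMap ℂ K (s 0 * s 1 * s 2) := by
    rw [Matrix.det_fin_three]
    simp [hD, EX.pd d hT]
  have hst : s 0 * s 1 * s 2 ≠ 0 := mul_ne_zero (mul_ne_zero (hs0 0) (hs0 1)) (hs0 2)
  have hJ : (Matrix.of fun (j k : Fin 3) => T.D j (h k)).det ≠ 0 := by
    rw [hdet, Ne, map_eq_zero_iff _ (algebraMap ℂ K).injective]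
    exact hst
  have hord : v.ord (Matrix.of fun (j k : Fin 3) => T.D j (h k)).det = 0 := by
    rw [hdet]
    exact v.const _ hst
  have key := Pool.Agent.W497.Mld.can_ge v hn (Equiv.refl _) T.D (fun _ => rfl) h hh hJ
  rw [hord, Fin.sum_univ_three] at key
  rw [Fin.sum_univ_three] at hgg
  have a0 := hE1 0
  have a1 := hE1 1
  have a2 := hE1 2
  have b0 := hE2 0
  have b1 := hE2 1
  have b2 := hE2 2
  have c0 := hE3 0
  have c1 := hE3 1
  have c2 := hE3 2
  have ec : EX.xx d 2 = d.c := rfl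
  constructor
  · by_cases hz : (∀ k, v.ord (h k) = 0)
    · have key2 := Pool.Agent.W497.Mld.can_ge_zero v hn (Equiv.refl _) T.D (fun _ => rfl)
        h hh hJ hz
      rw [hord] at key2
      have z0 := hz 0
      have z1 := hz 1
      have z2 := hz 2
      omega
    · push Not at hz
      obtain ⟨k, hk⟩ := hz
      have hk' : 2 * v.ord (1 - EX.xx d k ^ 2) + 2 * v.ord (EX.xx d k) < 3 * v.ord (h k) := by
        rcases hE3 k with h3 | ⟨_, _, h3⟩
        · exact h3
        · exact absurd h3 hk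
      have h4 : 2 * v.ord (1 - EX.xx d 0 ^ 2) + 2 * v.ord (EX.xx d 0) +
          (2 * v.ord (1 - EX.xx d 1 ^ 2) + 2 * v.ord (EX.xx d 1)) +
          (2 * v.ord (1 - EX.xx d 2 ^ 2) + 2 * v.ord (EX.xx d 2)) <
          3 * v.ord (h 0) + 3 * v.ord (h 1) + 3 * v.ord (h 2) := by
        fin_cases k
        · change 2 * v.ord (1 - EX.xx d 0 ^ 2) + 2 * v.ord (EX.xx d 0) < 3 * v.ord (h 0) at hk'
          omega
        · change 2 * v.ord (1 - EX.xx d 1 ^ 2) + 2 * v.ord (EX.xx d 1) < 3 * v.ord (h 1) at hk'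
          omega
        · change 2 * v.ord (1 - EX.xx d 2 ^ 2) + 2 * v.ord (EX.xx d 2) < 3 * v.ord (h 2) at hk'
          omega
      omega
  · rw [ec] at a2 hgg
    omega

end disc

end Pool.Agent.KS6_79.CY
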