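import Mathlib
import Pool.Agent.KS6_79.CY.Ex3
import Pool.Agent.KS6_79.CY.XM1
import Pool.Agent.KS6_79.CY.BPF
import Pool.Agent.KS6_79.CY.NEFA

/-!
# The nef class of the example
-/

set_option autoImplicit false

namespace Pool.Agent.KS6_79.CY.POS

open Pool.Agent.H436R3.Fol Pool.Agent.TH202

open Pool.Agent.KS6_79.CY.XM1 (Lin_one H_eq Lin_seven free_a free_b free_c free_seven)
open Pool.Agent.KS6_79.CY.BPF (free_y)
open Pool.Agent.KS6_79.CY.NEFA (bet_approx Th_eq)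

variable {K : Type} [Field K] [Algebra ℂ K]

theorem dv_mem {g : K} (hg : g ≠ 0) : dv g ∈ Prin K := Submodule.subset_span ⟨g, hg, rfl⟩

theorem rcar_of_prin (X : Model K) {D : DVal K → ℝ} (hD : D ∈ Prin K) : IsRCar X D :=
  fun _ => ⟨D, hD, fun _ _ => rfl⟩

theorem rcar_add {X : Model K} {D E : DVal K → ℝ} (hD : IsRCar X D) (hE : IsRCar X E) :
    IsRCar X (D + E) := by
  intro x
  obtain ⟨P, hP, h1⟩ := hD x
  obtain ⟨Q, hQ, h2⟩ := hE x
  exact ⟨P + Q, add_mem hP hQ, fun v hv => by rw [Pi.add_apply, Pi.add_apply, h1 v hv, h2 v hv]⟩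

theorem rcar_smul {X : Model K} {D : DVal K → ℝ} (c : ℝ) (hD : IsRCar X D) :
    IsRCar X (c • D) := by
  intro x
  obtain ⟨P, hP, h1⟩ := hD x
  exact ⟨c • P, Submodule.smul_mem _ c hP, fun v hv => by
    rw [Pi.smul_apply, Pi.smul_apply, h1 v hv]⟩

theorem rcar_sub {X : Model K} {D E : DVal K → ℝ} (hD : IsRCar X D) (hE : IsRCar X E) :
    IsRCar X (D - E) := by
  have h := rcar_add hD (rcar_smul (-1) hE)
  have he : D - E = D + (-1 : ℝ) • E := by rw [neg_one_smul, sub_eq_add_neg]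
  rw [he]
  exact h

theorem rcar_lin {X : Model K} {m : ℕ} {f : Fin (m + 1) → K} (hf : IsFree X f) :
    IsRCar X (Lin f) := by
  intro x
  obtain ⟨k, hk⟩ := hf.2 x
  refine ⟨(-1 : ℝ) • dv (f k), Submodule.smul_mem _ _ (dv_mem (hf.1 k)), fun v hv => ?_⟩
  rw [Pi.smul_apply, smul_eq_mul, neg_one_mul]
  change (Finset.univ.sup' Finset.univ_nonempty fun j => -(v.ord (f j) : ℝ)) = -(v.ord (f k) : ℝ)
  apply le_antisymm
  · apply Finset.sup'_le
    intro j _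
    have h1 := hv _ (hk j)
    have h2 := h1.resolve_left (div_ne_zero (hf.1 j) (hf.1 k))
    rw [v.ord_div (hf.1 j) (hf.1 k)] at h2
    have h3 : v.ord (f k) ≤ v.ord (f j) := by omega
    have h4 : (v.ord (f k) : ℝ) ≤ v.ord (f j) := by exact_mod_cast h3
    linarith
  · exact Finset.le_sup' (fun j => -(v.ord (f j) : ℝ)) (Finset.mem_univ k)

theorem ps_eq (x : ℤ) : ps x = (x : ℝ) + ng x := by
  unfold ps ng
  rcases le_total 0 (x : ℝ) with h | h
  · rw [max_eq_right h, max_eq_left (by linarith), add_zero]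
  · rw [max_eq_left h, max_eq_right (by linarith), add_neg_cancel]

theorem mn_nonneg (d : Dat3 K) (v : DVal K) : 0 ≤ mn d v := le_max_left _ _

theorem mn_le (d : Dat3 K) (v : DVal K) : mn d v ≤ ps (v.ord d.c) := by
  unfold mn ps
  apply max_le_max le_rfl
  exact (min_le_right _ _).trans (min_le_right _ _)

theorem Sb_nonneg (d : Dat3 K) (v : DVal K) : 0 ≤ Sb d v :=
  mul_nonneg (by norm_num) (sub_nonneg.2 (mn_le d v))

/-- The seven monomials. -/
def sev (d : Dat3 K) : Fin 7 → K :=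
  ![d.a, d.b, d.c, d.a * d.b, d.b * d.c, d.a * d.c, d.a * d.b * d.c]

theorem Lin_sev (d : Dat3 K) (v : DVal K) :
    Lin (m := 6) (sev d) v =
      ng (v.ord d.a) + ng (v.ord d.b) + ng (v.ord d.c) - mn d v := Lin_seven d v

theorem Sb_eq (d : Dat3 K) :
    Sb d = (1 / 3 : ℝ) • (dv d.c + Lin (m := 6) (sev d) - Lin (m := 1) ![1, d.a] -
      Lin (m := 1) ![1, d.b]) := by
  funext v
  simp only [Pi.add_apply, Pi.sub_apply, Pi.smul_apply, smul_eq_mul, Lin_one, Lin_sev]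
  unfold Sb dv
  rw [ps_eq]
  ring

theorem rcar_Sb (d : Dat3 K) (h : XiAlg d) : IsRCar (Xd d h) (Sb d) := by
  rw [Sb_eq]
  exact rcar_smul _ (rcar_sub (rcar_sub (rcar_add (rcar_of_prin _ (dv_mem d.c_ne))
    (rcar_lin (free_seven d h))) (rcar_lin (free_a d h))) (rcar_lin (free_b d h)))

theorem free_yk {d : Dat3 K} (h : XiAlg d) (s : Sq3 d) (k : ℕ) :
    IsFree (Xd d h) (m := 1) ![1, s.y k] := free_y _ (free_a d h) (free_b d h) s k

theorem rcar_Ak {d : Dat3 K} (h : XiAlg d) (s : Sq3 d) (k : ℕ) : IsRCar (Xd d h) (Ak s k) :=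
  rcar_add (rcar_lin (free_yk h s (k + 1))) (rcar_lin (free_yk h s k))

theorem rcar_bet {d : Dat3 K} (h : XiAlg d) (s : Sq3 d) : IsRCar (Xd d h) (bet s) :=
  rcar_sub (rcar_Ak h s 2) (rcar_smul _ (rcar_Ak h s 1))

theorem Ak_one {d : Dat3 K} (s : Sq3 d) (v : DVal K) :
    Ak s 1 v = (v.ord d.a : ℝ) + (v.ord d.b : ℝ) + ng (v.ord d.a) + ng (v.ord d.b) := by
  change Th s (1 + 1) v + Th s 1 v = _
  rw [Th_eq, Th_eq, s.y1, show 1 + 1 = 2 from rfl, s.y2, v.ord_inv d.a_ne, v.ord_inv d.b_ne]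
  have h1 : max (0 : ℝ) (-((-v.ord d.a : ℤ) : ℝ)) = ps (v.ord d.a) := by
    unfold ps; push_cast; rw [neg_neg]
  have h2 : max (0 : ℝ) (-((-v.ord d.b : ℤ) : ℝ)) = ps (v.ord d.b) := by
    unfold ps; push_cast; rw [neg_neg]
  rw [h1, h2, ps_eq, ps_eq]
  ring

theorem smul_mem_SFree {X : Model K} {F : DVal K → ℝ} (hF : F ∈ SFree X) {c : ℝ} (hc : 0 ≤ c) :
    c • F ∈ SFree X := by
  have h := Submodule.smul_mem (SFree X) (⟨c, hc⟩ : NNReal) hF
  exact h

theorem lin_mem {X : Model K} {m : ℕ} {f : Fin (m + 1) → K} (hf : IsFree X f) :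
    Lin f ∈ SFree X := Submodule.subset_span ⟨m, f, hf, rfl⟩

theorem bet_nef_aux {d : Dat3 K} (h : XiAlg d) (s : Sq3 d) (δ : ℝ) (hδ : 0 < δ) :
    ∃ F ∈ SFree (Xd d h), ∃ P ∈ Prin K, ∀ v, bet s v + δ * (Xd d h).H v = F v + P v := by
  obtain ⟨k, hk, g, e, hg, hgδ, he, heδ, hQ⟩ := bet_approx s δ hδ
  refine ⟨g • Th s (k + 1 + 1) + g • Th s (k + 1) + (δ - e) • Lin (m := 1) ![1, d.a]
    + (δ - e) • Lin (m := 1) ![1, d.b] + δ • Lin (m := 1) ![1, d.c] + δ • Lin (m := 6) (sev d), ?_,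
    (bet s + e • Ak s 1 - g • Ak s (k + 1)) - e • dv d.a - e • dv d.b, ?_, ?_⟩
  · have hde : 0 ≤ δ - e := by linarith
    refine add_mem (add_mem (add_mem (add_mem (add_mem ?_ ?_) ?_) ?_) ?_) ?_
    · exact smul_mem_SFree (lin_mem (free_yk h s _)) hg.le
    · exact smul_mem_SFree (lin_mem (free_yk h s _)) hg.le
    · exact smul_mem_SFree (lin_mem (free_a d h)) hde
    · exact smul_mem_SFree (lin_mem (free_b d h)) hde
    · exact smul_mem_SFree (lin_mem (free_c d h)) hδ.le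
    · exact smul_mem_SFree (lin_mem (free_seven d h)) hδ.le
  · exact sub_mem (sub_mem hQ (Submodule.smul_mem _ _ (dv_mem d.a_ne)))
      (Submodule.smul_mem _ _ (dv_mem d.b_ne))
  · intro v
    have h1 : Ak s (k + 1) v = Th s (k + 1 + 1) v + Th s (k + 1) v := rfl
    simp only [Pi.add_apply, Pi.sub_apply, Pi.smul_apply, smul_eq_mul, Lin_one, Lin_sev, Ak_one, h1,
      H_eq]
    unfold dv
    ring

theorem bet_nef {d : Dat3 K} (h : XiAlg d) (s : Sq3 d) : IsNef (Xd d h) (bet s) :=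
  ⟨rcar_bet h s, fun δ hδ => bet_nef_aux h s δ hδ⟩

theorem SFree_eff {X : Model K} {F : DVal K → ℝ} (hF : F ∈ SFree X) :
    ∃ P ∈ Prin K, ∀ v, 0 ≤ F v + P v := by
  unfold SFree at hF
  induction hF using Submodule.span_induction with
  | mem F hF =>
    obtain ⟨m, f, hf, rfl⟩ := hF
    refine ⟨dv (f 0), dv_mem (hf.1 0), fun v => ?_⟩
    have h1 : -(v.ord (f 0) : ℝ) ≤ Lin f v :=
      Finset.le_sup' (fun j => -(v.ord (f j) : ℝ)) (Finset.mem_univ 0)
    have h2 : dv (f 0) v = (v.ord (f 0) : ℝ) := rfl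
    linarith
  | zero => exact ⟨0, zero_mem _, fun v => by simp⟩
  | add F G _ _ hF hG =>
    obtain ⟨P, hP, h1⟩ := hF
    obtain ⟨Q, hQ, h2⟩ := hG
    refine ⟨P + Q, add_mem hP hQ, fun v => ?_⟩
    have h3 := h1 v
    have h4 := h2 v
    simp only [Pi.add_apply]
    linarith
  | smul c F _ hF =>
    obtain ⟨P, hP, h1⟩ := hF
    refine ⟨(c : ℝ) • P, Submodule.smul_mem _ _ hP, fun v => ?_⟩
    have h3 := mul_nonneg c.2 (h1 v)
    have h4 : (c • F) v = (c : ℝ) * F v := rfl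
    rw [h4, Pi.smul_apply, smul_eq_mul, ← mul_add]
    exact h3

end Pool.Agent.KS6_79.CY.POS
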