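import Mathlib
import Pool.Graph.R_seed8.TH202.Dom
import Pool.Graph.R_seed8.TH202.Norm
import Pool.Graph.R_seed8.TH202.NegC
import Pool.Agent.KS6_79.CY.POS

/-!
# The strict transform of `c = 0` is not a component of the positive part
-/

set_option autoImplicit false

namespace Pool.Agent.KS6_79.CY

open Pool.Agent.H436R3.Fol Pool.Agent.TH202 MvPolynomial

variable {K : Type} [Field K] [Algebra ℂ K]

theorem Sb_le (d : Dat3 K) (v : DVal K) : Sb d v ≤ 1 / 3 * ps (v.ord d.c) := by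
  have : 0 ≤ mn d v := le_max_left _ _
  rw [Sb]
  linarith

theorem Th_nonneg {d : Dat3 K} (s : Sq3 d) (k : ℕ) (v : DVal K) : 0 ≤ Th s k v := by
  rw [Pool.Agent.KS6_79.CY.NEFA.Th_eq]
  exact le_max_left _ _

/-- The positive part does not contain the strict transform of `c = 0`. -/
theorem c_step [Algebra.EssFiniteType ℂ K] {d : Dat3 K} (h : XiAlg d) (s : Sq3 d) (vS : DVal K)
    (hvS : IsS d vS) (hvc : vS.ord d.c = 3)
    (huniq : ∀ v' : DVal K, IsS d v' → ∀ f, f ≠ 0 → v'.ord f = vS.ord f)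
    (Y : Model K) (N : DVal K → ℝ) (hN : IsNef Y N) (n : ℝ) (hn : n = N vS)
    (hle : ∀ w, IsPrimeOn (Xd d h) w → N w ≤ bet s w + n * Sb d w) : n ≤ 0 := by
  by_contra hn0
  push Not at hn0
  set X := Xd d h with hX
  obtain ⟨n1, s1, hs1, hb1⟩ := exists_bound X Y.ξ Y.ne
  have hbetR : IsRCar X (bet s) := (Pool.Agent.KS6_79.CY.POS.bet_nef h s).1
  -- choose the approximation
  obtain ⟨k, hk1, g, e, hg0, hg, he0, he, hQ⟩ := Pool.Agent.KS6_79.CY.NEFA.bet_approx s (n / 24) (by linarith)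
  set Q := bet s + e • Ak s 1 - g • Ak s (k + 1) with hQdef
  set a' := (s.y (k + 2))⁻¹ with ha'
  set b' := (s.y (k + 1))⁻¹ with hb'
  have hya : s.y (k + 2) ≠ 0 := s.y_ne _
  have hyb : s.y (k + 1) ≠ 0 := s.y_ne _
  have ha0 : a' ≠ 0 := inv_ne_zero hya
  have hb0 : b' ≠ 0 := inv_ne_zero hyb
  have hind : AlgebraicIndependent ℂ ![a', b', d.c] := s.ind (k + 1) (by omega)
  have halg : ∀ f : K, IsAlgebraic (Algebra.adjoin ℂ (Set.range ![a', b', d.c])) f :=
    s.alg (k + 1) (by omega)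
  set Z := Zm a' b' d.c ha0 hb0 d.c_ne halg with hZ
  obtain ⟨n2, s2, hs2, hb2⟩ := exists_bound Z X.ξ X.ne
  have hZle : ∀ v, Z.H v ≤ ng (v.ord a') + ng (v.ord b') + ng (v.ord d.c) :=
    Zm_H_le a' b' d.c ha0 hb0 d.c_ne halg
  have hAk : ∀ v, Ak s (k + 1) v = (v.ord a' : ℝ) + ng (v.ord a') + ((v.ord b' : ℝ)
      + ng (v.ord b')) := by
    intro v
    change Th s (k + 1 + 1) v + Th s (k + 1) v = _
    rw [Pool.Agent.KS6_79.CY.NEFA.Th_eq, Pool.Agent.KS6_79.CY.NEFA.Th_eq, ps_inv v hya, ps_inv v hyb]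
  have hA1 : ∀ v, 0 ≤ Ak s 1 v := fun v => add_nonneg (Th_nonneg s _ v) (Th_nonneg s _ v)
  -- the value at vS
  have hyS : ∀ j, vS.ord (s.y j) = 0 := s.triv vS hvS
  have hThS : ∀ j, Th s j vS = 0 := by
    intro j
    rw [Pool.Agent.KS6_79.CY.NEFA.Th_eq, hyS j]
    simp
  have hAkS : ∀ j, Ak s j vS = 0 := by
    intro j
    change Th s (j + 1) vS + Th s j vS = 0
    rw [hThS, hThS, add_zero]
  have hbetS : bet s vS = 0 := by
    change Ak s 2 vS - kap * Ak s 1 vS = 0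
    rw [hAkS, hAkS]
    ring
  have haS : vS.ord a' = 0 := by rw [ha', vS.ord_inv hya, hyS]; rfl
  have hbS : vS.ord b' = 0 := by rw [hb', vS.ord_inv hyb, hyS]; rfl
  set C : ℝ := n1 * (vS.ord s2 : ℝ) + (vS.ord s1 : ℝ) - Y.H vS with hC
  have key : ∀ δ : ℝ, 0 < δ → n / 3 - δ * (C / 3) ≤ 2 * (g + δ * n1 * n2) := by
    intro δ hδ
    obtain ⟨P, hP, hPle, hPv⟩ := nef_touch hN hδ vS
    set E := bet s + n • Sb d + δ • ((n1 : ℝ) • X.H + dv s1) - P with hE
    have hER : IsRCar X E :=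
      (((hbetR.add ((POS.rcar_Sb d h).smul n)).add
        ((((rcar_H X).smul _).add (rcar_of_prin (dv_mem hs1))).smul δ))).sub (rcar_of_prin hP)
    have hE0 : ∀ v, 0 ≤ E v := by
      refine rcar_nonneg hER fun w hw => ?_
      simp only [hE, Pi.sub_apply, Pi.add_apply, Pi.smul_apply, smul_eq_mul, dv]
      have h2 := hPle w
      have h3 := hle w hw
      have h4 : Y.H w ≤ n1 * X.H w + (w.ord s1 : ℝ) := hb1 w
      have h5 := mul_le_mul_of_nonneg_left h4 hδ.le
      linarith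
    set P2 := g • (dv a' + dv b') + Q + δ • ((n1 : ℝ) • dv s2 + dv s1) - P with hP2
    have hP2m : P2 ∈ Prin K := by
      refine (Prin K).sub_mem ((Prin K).add_mem ((Prin K).add_mem ((Prin K).smul_mem _
        ((Prin K).add_mem (dv_mem ha0) (dv_mem hb0))) hQ) ((Prin K).smul_mem _
        ((Prin K).add_mem ((Prin K).smul_mem _ (dv_mem hs2)) (dv_mem hs1)))) hP
    have hn1 : (0 : ℝ) ≤ n1 := Nat.cast_nonneg _
    have hn2 : (0 : ℝ) ≤ n2 := Nat.cast_nonneg _
    have hmid : ∀ v : DVal K, 0 ≤ (g + δ * n1 * n2) * (ng (v.ord a') + ng (v.ord b'))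
        + (δ * n1 * n2) * ng (v.ord d.c) + n * Sb d v + P2 v := by
      intro v
      have e1 := hE0 v
      simp only [hE, Pi.sub_apply, Pi.add_apply, Pi.smul_apply, smul_eq_mul, dv] at e1
      have e2 : X.H v ≤ n2 * Z.H v + (v.ord s2 : ℝ) := hb2 v
      have e3 := hZle v
      have e4 : Q v = bet s v + e * Ak s 1 v - g * Ak s (k + 1) v := rfl
      have e5 := mul_nonneg he0 (hA1 v)
      have e6 := hAk v
      rw [e6] at e4
      have e7 : P2 v = g * ((v.ord a' : ℝ) + (v.ord b' : ℝ)) + Q v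
          + δ * (n1 * (v.ord s2 : ℝ) + (v.ord s1 : ℝ)) - P v := rfl
      have e8 : X.H v ≤ n2 * (ng (v.ord a') + ng (v.ord b') + ng (v.ord d.c))
          + (v.ord s2 : ℝ) := by
        have := mul_le_mul_of_nonneg_left e3 hn2
        linarith
      have e9 := mul_le_mul_of_nonneg_left e8 (mul_nonneg hδ.le hn1)
      rw [e7]
      nlinarith [e1, e9, e5, e4]
    have hmain := norm_lemma a' b' d.c hind halg hP2m (g + δ * n1 * n2) (δ * n1 * n2) (n / 3)
      (δ * (C / 3))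
      ?_ ?_ ?_
    · exact hmain
    · intro v
      have e1 := hmid v
      have e2 := mul_le_mul_of_nonneg_left (Sb_le d v) hn0.le
      linarith
    · intro v v1 v2 v3
      have e1 := hmid v
      have f1 : v.ord (s.y (k + 1 + 1)) = -v.ord d.c := by
        have : v.ord a' = -v.ord (s.y (k + 2)) := v.ord_inv hya
        change v.ord (s.y (k + 2)) = _
        omega
      have f2 : v.ord (s.y (k + 1)) = -v.ord d.c := by
        have : v.ord b' = -v.ord (s.y (k + 1)) := v.ord_inv hyb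
        omega
      obtain ⟨g1, g2⟩ := s.fil (k + 1) (by omega) v v1 f1 f2
      have g3 : (0 : ℝ) ≤ v.ord d.c := by exact_mod_cast v1.le
      have g4 : mn d v = v.ord d.c := by
        have h5 : ((v.ord d.c : ℤ) : ℝ) ≤ v.ord d.a := by exact_mod_cast g1
        have h6 : ((v.ord d.c : ℤ) : ℝ) ≤ v.ord d.b := by exact_mod_cast g2
        rw [mn, min_eq_right h6, min_eq_right h5, max_eq_right g3]
      have g5 : Sb d v = 0 := by
        rw [Sb, g4, ps_of_nonneg v1.le, sub_self, mul_zero]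
      rw [g5, v2, v3, ng_of_nonneg v1.le] at e1
      linarith
    · intro v v1 v2
      have hvs : IsS d v := ⟨s.pair (k + 1) (by omega) v v1, v2⟩
      have hsame := huniq v hvs
      rw [prin_congr hsame hP2m, hsame _ d.c_ne, hvc]
      have e7 : P2 vS = g * ((vS.ord a' : ℝ) + (vS.ord b' : ℝ)) + Q vS
          + δ * (n1 * (vS.ord s2 : ℝ) + (vS.ord s1 : ℝ)) - P vS := rfl
      have e4 : Q vS = bet s vS + e * Ak s 1 vS - g * Ak s (k + 1) vS := rfl
      rw [e7, e4, hbetS, hAkS, hAkS, haS, hbS, hPv, ← hn, hC]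
      push_cast
      linarith
  -- choose δ
  set M : ℝ := |C| + 2 * n1 * n2 + 1 with hM
  have hn1 : (0 : ℝ) ≤ n1 := Nat.cast_nonneg _
  have hn2 : (0 : ℝ) ≤ n2 := Nat.cast_nonneg _
  have hn12 : (0 : ℝ) ≤ 2 * n1 * n2 := by positivity
  have hMpos : 0 < M := by
    have := abs_nonneg C
    linarith
  have h1 := key (n / (8 * M)) (by positivity)
  have h2 : n / (8 * M) * M = n / 8 := by
    field_simp
  have h3 : n / (8 * M) * (C / 3 + 2 * n1 * n2) ≤ n / (8 * M) * M :=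
    mul_le_mul_of_nonneg_left (by linarith [le_abs_self C, abs_nonneg C]) (by positivity)
  have h4 : n / (8 * M) * (C / 3 + 2 * n1 * n2) =
      n / (8 * M) * (C / 3) + 2 * (n / (8 * M) * n1 * n2) := by
    ring
  linarith

end Pool.Agent.KS6_79.CY
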