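import Mathlib
import Pool.Agent.KS6_79.CY.NegB3
import Pool.Agent.KS6_79.CY.Fol3
import Pool.Graph.R_seed8.TH202.Neg
import Pool.Graph.R_seed8.Y181.WLC

/-!
# The pairs `(X, ε S + β)` on the threefold `X` with trivial canonical divisor
-/

set_option autoImplicit false

namespace Pool.Agent.KS6_79.CY

open Pool.Agent.H436R3.Fol Pool.Agent.TH202 Pool.Agent.Y181 MvPolynomial

variable {K : Type} [Field K] [Algebra ℂ K]

/-- The factors of the vector fields. -/
noncomputable def yy (d : Dat3 K) : Fin 3 → Kˣ := ![Units.mk0 (XM2.gg d) (XM2.gg_ne d), 1, 1]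

theorem yy_prod (d : Dat3 K) : (∏ i, (yy d i : K)) = XM2.gg d := by
  rw [Fin.prod_univ_three]
  simp [yy]

/-- The basis `g ∂_a, ∂_b, ∂_c` of the vector fields. -/
noncomputable def TT (d : Dat3 K) (T : Foliation K 3) (hT : T.space = ⊤) : Foliation K 3 :=
  scl T hT (yy d)

/-- The canonical divisor is zero. -/
theorem can_zero (d : Dat3 K) (h : XiAlg d) (T : Foliation K 3) (hs : T.space = ⊤)
    (hT : IsPd d T) (w : DVal K) (hw : IsPrimeOn (Xd d h) w) : IsCanOrd (TT d T hs) w 0 := by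
  obtain ⟨⟨n, hn, hn'⟩, -⟩ := XM2.prime_X d h T hT w hw
  have h1 := scl_can hs (yy d) hn
  rw [yy_prod] at h1
  have h2 := XM2.ord_gg d w
  have h3 : n - w.ord (XM2.gg d) = 0 := by omega
  rw [h3] at h1
  exact h1

/-- The discrepancies. -/
theorem can_disc (d : Dat3 K) (T : Foliation K 3) (hs : T.space = ⊤) (hT : IsPd d T) (v : DVal K)
    (n : ℤ) (hn : IsCanOrd (TT d T hs) v n) : 0 ≤ n ∧ v.ord d.c ≤ 3 * (1 + n) := by
  have h1 := scl_can' hs (yy d) hn
  rw [yy_prod] at h1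
  have h2 := disc d T hT v _ h1
  constructor
  · have := h2.1
    omega
  · have := h2.2
    omega

theorem vS_S (d : Dat3 K) : IsS d d.vS := ⟨d.vSab, by rw [d.vSc]; norm_num⟩

theorem vS_u (d : Dat3 K) (v : DVal K) (hv : IsS d v) (f : K) (hf : f ≠ 0) :
    v.ord f = d.vS.ord f := d.vSu v hv.1 hv.2 f hf

theorem Sb_vS (d : Dat3 K) : Sb d d.vS = 1 := by
  have haS : d.vS.ord d.a = 0 := by
    have := d.vSab (MvPolynomial.X 0) (X_ne_zero _)
    rwa [aeval_X] at this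
  have h1 : mn d d.vS = 0 := by
    rw [mn, haS, Int.cast_zero]
    exact max_eq_left (min_le_left _ _)
  rw [Sb, h1, d.vSc, ps]
  norm_num

theorem bet_vS {d : Dat3 K} (s : Sq3 d) : bet s d.vS = 0 := by
  have hyS : ∀ j, d.vS.ord (s.y j) = 0 := s.triv d.vS (vS_S d)
  have hAkS : ∀ j, Ak s j d.vS = 0 := by
    intro j
    change Th s (j + 1) d.vS + Th s j d.vS = 0
    rw [NEFA.Th_eq, NEFA.Th_eq, hyS, hyS]
    simp
  change Ak s 2 d.vS - kap * Ak s 1 d.vS = 0
  rw [hAkS, hAkS]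
  ring

/-- There is no weak log canonical model. -/
theorem no_lc [Algebra.EssFiniteType ℂ K] {d : Dat3 K} (h : XiAlg d) (s : Sq3 d)
    (T : Foliation K 3) (hs : T.space = ⊤) (hT : IsPd d T) {ε : ℝ} (hε : 0 < ε) (Y : Model K)
    (E : DVal K → ℝ) :
    ¬ IsWeakLCModel (TT d T hs) (Xd d h) (ε • Sb d) (bet s) (bet s + ε • Sb d) Y E := by
  rintro ⟨hprime, hadj, hnef, hdisc⟩
  set X := Xd d h with hX
  have hNY : ∀ w, IsPrimeOn Y w → E w = ε * Sb d w + bet s w := by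
    intro w hw
    have h1 := hadj.2 w hw 0 (can_zero d h T hs hT w (hprime w hw))
    rw [h1]
    simp only [Pi.smul_apply, smul_eq_mul]
    push_cast
    ring
  have hNX : ∀ w, IsPrimeOn X w → E w ≤ ε * Sb d w + bet s w := by
    intro w hw
    by_cases hwY : IsPrimeOn Y w
    · exact (hNY w hwY).le
    · have h1 := hdisc w hw hwY
      simp only [Pi.add_apply, Pi.smul_apply, smul_eq_mul] at h1
      linarith
  have hbet := POS.bet_nef h s
  have hge : ∀ v, bet s v ≤ E v := by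
    refine dom hbet hnef.1 fun w hw => ?_
    rw [hNY w hw]
    have := mul_nonneg hε.le (POS.Sb_nonneg d w)
    linarith
  have hbetS := bet_vS s
  have hSbS := Sb_vS d
  have hSbR := POS.rcar_Sb d h
  have hcase : ∀ w, IsPrimeOn X w → E w ≤ bet s w + E d.vS * Sb d w := by
    intro w hw
    by_cases h0 : Sb d w = 0
    · have h1 := hNX w hw
      rw [h0] at h1 ⊢
      linarith
    · have h1 := (XM2.prime_X d h T hT w hw).2 h0
      have h2 := vS_u d w h1
      rw [rcar_congr hnef.1 h2, rcar_congr hbet.1 h2, rcar_congr hSbR h2, hbetS, hSbS]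
      linarith
  have hle := c_step h s d.vS (vS_S d) d.vSc (vS_u d) Y E hnef (E d.vS) rfl hcase
  have hge' := hge d.vS
  rw [hbetS] at hge'
  have hzero : E d.vS = 0 := le_antisymm hle hge'
  have hle' : ∀ v, E v ≤ bet s v := by
    refine dom hnef hbet.1 fun w hw => ?_
    have := hcase w hw
    rw [hzero] at this
    linarith
  have hYS := b_step s d.vS (vS_S d) Y E hnef.1 fun v => le_antisymm (hle' v) (hge v)
  have hfin := hNY d.vS hYS
  rw [hzero, hbetS, hSbS] at hfin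
  linarith

/-- The pairs are gklt, also for `ε = 0`. -/
theorem gklt {d : Dat3 K} (h : XiAlg d) (s : Sq3 d)
    (T : Foliation K 3) (hs : T.space = ⊤) (hT : IsPd d T) {ε : ℝ}
    (hε : 0 ≤ ε) (hε' : ε < 1) :
    IsGklt (TT d T hs) (Xd d h) (ε • Sb d) (bet s) (bet s + ε • Sb d) := by
  refine ⟨fun w _ => ?_, ?_, ⟨_, POS.bet_nef h s⟩, ⟨?_, ?_⟩, ?_⟩
  · exact mul_nonneg hε (POS.Sb_nonneg d w)
  · refine ⟨{d.vS}, Set.finite_singleton _, fun w hw hB => ⟨d.vS, rfl, ?_⟩⟩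
    have h1 : Sb d w ≠ 0 := fun h0 => hB (by rw [Pi.smul_apply, h0, smul_zero])
    exact vS_u d w ((XM2.prime_X d h T hT w hw).2 h1)
  · exact POS.rcar_add (POS.rcar_bet h s) (POS.rcar_smul _ (POS.rcar_Sb d h))
  · intro w hw n hn
    have h2 : n = 0 := IsLeast.unique hn (can_zero d h T hs hT w hw)
    subst h2
    simp only [Pi.add_apply, Pi.smul_apply, smul_eq_mul]
    push_cast
    ring
  · intro v _ n hn
    obtain ⟨h1, h2⟩ := can_disc d T hs hT v n hn
    have h3 : Sb d v ≤ 1 / 3 * ps (v.ord d.c) := Sb_le d v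
    have h1' : (0 : ℝ) ≤ n := by exact_mod_cast h1
    have h2' : (v.ord d.c : ℝ) ≤ 3 * (1 + n) := by exact_mod_cast h2
    simp only [Pi.add_apply, Pi.smul_apply, smul_eq_mul]
    have h4 : ps (v.ord d.c) ≤ 3 * (1 + n) := max_le (by linarith) h2'
    have h5 : ε * Sb d v ≤ ε * (1 + n) := mul_le_mul_of_nonneg_left (by linarith) hε
    have h6 : ε * (1 + n) < 1 * (1 + n) := mul_lt_mul_of_pos_right hε' (by linarith)
    linarith

/-- `S` is a prime divisor on `X`. -/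
theorem prime_S {d : Dat3 K} (h : XiAlg d) [Algebra.EssFiniteType ℂ K] (s : Sq3 d)
    (T : Foliation K 3) (hT : IsPd d T) : ∃ z, IsPrimeOn (Xd d h) z ∧ Sb d z = 1 ∧
      ∀ w, IsPrimeOn (Xd d h) w → ¬ Same w z → Sb d w = 0 := by
  refine ⟨d.vS, ?_, Sb_vS d, fun w hw hne => ?_⟩
  · exact b_step s d.vS (vS_S d) (Xd d h) (bet s) (POS.bet_nef h s).1 fun v => rfl
  · by_contra h0
    exact hne (vS_u d w ((XM2.prime_X d h T hT w hw).2 h0))

/-- The divisors `β + ε S` are pseudo-effective. -/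
theorem psef {d : Dat3 K} (h : XiAlg d) (s : Sq3 d) {ε : ℝ} (hε : 0 ≤ ε) :
    IsPsef (Xd d h) (bet s + ε • Sb d) := by
  intro δ hδ
  obtain ⟨F, hF, P, hP, h2⟩ := (POS.bet_nef h s).2 δ hδ
  obtain ⟨Q, hQ, h3⟩ := POS.SFree_eff hF
  refine ⟨Q - P, sub_mem hQ hP, fun w _ => ?_⟩
  have h4 := h2 w
  have h5 := h3 w
  have h6 := mul_nonneg hε (POS.Sb_nonneg d w)
  simp only [Pi.add_apply, Pi.sub_apply, Pi.smul_apply, smul_eq_mul] at h4 ⊢
  linarith

end Pool.Agent.KS6_79.CY
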