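import Mathlib
import Pool.Agent.KS6_79.CY.SEQ_D
import Pool.Graph.R_seed8.TH202.Mod
import Pool.Graph.R_seed8.TH589.C8_PAR
import Pool.Graph.R_seed8.TH646.C8_FIL

/-!
# The Fibonacci sequence of points: existence
-/

set_option autoImplicit false

namespace Pool.Agent.KS6_79.CY.SEQ

open Pool.Agent.H436R3.Fol Pool.Agent.TH202 MvPolynomial Pool.Agent.TH755.C8_SEQ

/-- Extension of a valuation ring to a larger field. -/
theorem ext_val {K L : Type} [Field K] [Field L] [Algebra K L] (V : ValuationSubring K) :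
    ∃ V' : ValuationSubring L, ∀ f : K, algebraMap K L f ∈ V' ↔ f ∈ V := by
  obtain ⟨V', h1, h2⟩ := (V.toLocalSubring.map (algebraMap K L)).exists_le_valuationSubring
  have h3 : ∀ f : K, f ∈ V → algebraMap K L f ∈ V' := fun f hf =>
    h1 (Subring.mem_map.2 ⟨f, hf, rfl⟩)
  refine ⟨V', fun f => ⟨fun hf => ?_, h3 f⟩⟩
  by_contra hV
  have hi : f⁻¹ ∈ V := (V.mem_or_inv_mem f).resolve_left hV
  have hf0 : f ≠ 0 := by
    rintro rfl
    exact hV V.zero_mem
  have hm : algebraMap K L f⁻¹ ∈ (V.toLocalSubring.map (algebraMap K L)).toSubring :=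
    Subring.mem_map.2 ⟨f⁻¹, hi, rfl⟩
  have hu : IsUnit (Subring.inclusion h1 ⟨algebraMap K L f⁻¹, hm⟩) := by
    refine isUnit_iff_exists_inv.2 ⟨⟨algebraMap K L f, hf⟩, Subtype.ext ?_⟩
    change algebraMap K L f⁻¹ * algebraMap K L f = 1
    rw [← map_mul, inv_mul_cancel₀ hf0, map_one]
  obtain ⟨⟨b, hb⟩, hb'⟩ := isUnit_iff_exists_inv.1 (h2.1 _ hu)
  obtain ⟨g, hg, rfl⟩ := Subring.mem_map.1 hb
  have h4 : algebraMap K L f⁻¹ * algebraMap K L g = 1 := congrArg Subtype.val hb'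
  rw [← map_mul, ← map_one (algebraMap K L)] at h4
  have h5 := (algebraMap K L).injective h4
  have h6 : g = f := by
    rw [inv_mul_eq_iff_eq_mul₀ hf0, mul_one] at h5
    exact h5
  rw [h6] at hg
  exact hV hg

section main

variable {K : Type} [Field K] [Algebra ℂ K]

omit [Algebra ℂ K] in
theorem Gen.ext {L : Type} [Field L] [Algebra K L] {V : ValuationSubring K}
    {V' : ValuationSubring L} (hV : ∀ f : K, algebraMap K L f ∈ V' ↔ f ∈ V) {t y : K}
    (h : Pool.Agent.TH202.Gen V t y) :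
    Pool.Agent.TH589.C8_PAR.Gen V' (algebraMap K L t) (algebraMap K L y) := by
  obtain ⟨h0, h1, h2, h3⟩ := h
  refine ⟨(map_ne_zero _).2 h0, ?_, ?_, ?_⟩
  · rcases h1 with rfl | rfl
    · left
      exact map_one _
    · right
      rfl
  · rw [← map_inv₀]
    exact (hV _).2 h2
  · rw [← map_inv₀, ← map_mul]
    exact (hV _).2 h3

/-- The discriminants. -/
def Dk (d : Dat3 K) (k : ℕ) : K := cA d * ((sq d (k + 2)).1 - (sq d (k + 1)).1) ^ 3

theorem Dk_ne (d : Dat3 K) (k : ℕ) : Dk d k ≠ 0 :=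
  mul_ne_zero (cA_ne d) (pow_ne_zero 3 (sub_ne_zero.2 (ne_all d k)))

theorem Dk_map {L : Type} [Field L] [Algebra K L] {ξ : L} (d : Dat3 K)
    (hξ : ξ ^ 3 = algebraMap K L (cA d)) (k : ℕ) : algebraMap K L (Dk d k) =
      (ξ * algebraMap K L (sq d (k + 2)).1 - ξ * algebraMap K L (sq d (k + 1)).1) ^ 3 := by
  rw [Dk, map_mul, map_pow, map_sub, ← hξ]
  ring

theorem X_ne {L : Type} [Field L] [Algebra K L] {ξ : L} (d : Dat3 K)
    (hξ : ξ ^ 3 = algebraMap K L (cA d)) (k : ℕ) :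
    ξ * algebraMap K L (sq d (k + 2)).1 ≠ ξ * algebraMap K L (sq d (k + 1)).1 := by
  intro h
  have h1 := mul_left_cancel₀ (xi_ne' (cA_ne d) hξ) h
  exact ne_all d k ((algebraMap K L).injective h1)

theorem par (d : Dat3 K) (k : ℕ) (V : ValuationSubring K) (hC : ∀ z : ℂ, algebraMap ℂ K z ∈ V)
    (t0 t1 t2 t3 : K) (g0 : Pool.Agent.TH202.Gen V t0 (sq d k).2) (g1 : Pool.Agent.TH202.Gen V t1 (sq d (k + 1)).2)
    (g2 : Pool.Agent.TH202.Gen V t2 (sq d (k + 2)).2) (g3 : Pool.Agent.TH202.Gen V t3 (sq d (k + 3)).2) :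
    t3 * t0 * Dk d k * (t2 ^ 2 * t1 ^ 2)⁻¹ ∈ V ∧
      (t3 * t0 * Dk d k * (t2 ^ 2 * t1 ^ 2)⁻¹)⁻¹ ∈ V := by
  obtain ⟨ξ, hξ⟩ := ex_xi d
  obtain ⟨V', hV⟩ := ext_val (L := AlgebraicClosure K) V
  have hcz : CharZero K := charZero_of_injective_algebraMap (algebraMap ℂ K).injective
  have hcz' : CharZero (AlgebraicClosure K) :=
    charZero_of_injective_algebraMap (algebraMap K (AlgebraicClosure K)).injective
  have hn : ∀ n : ℕ, ((n : AlgebraicClosure K))⁻¹ ∈ V' := by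
    intro n
    have h1 := (hV _).2 (hC ((n : ℂ)⁻¹))
    simpa using h1
  have key := Pool.Agent.TH589.C8_PAR.parallelogram V' (by simpa using hn 2) (by simpa using hn 3)
    two_ne_zero three_ne_zero (on_map hξ (on_all d (k + 2))) (on_map hξ (on_all d (k + 1)))
    (X_ne d hξ k) (xp := ξ * algebraMap K _ (sq d (k + 3)).1)
    (yp := algebraMap K _ (sq d (k + 3)).2) (xm := ξ * algebraMap K _ (sq d k).1)
    (ym := algebraMap K _ (sq d k).2)
    (by rw [sq_add, fst_map (cA_ne d) hξ]) (on_map hξ (on_all d (k + 3)))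
    (by
      conv_lhs => rw [back_all]
      rw [fst_map (cA_ne d) hξ]
      simp only [ngp, map_neg, sub_neg_eq_add]) (on_map hξ (on_all d k))
    (Gen.ext hV g2) (Gen.ext hV g1) (Gen.ext hV g3) (Gen.ext hV g0)
  rw [← Dk_map d hξ, ← map_pow, ← map_pow, ← map_mul, ← map_mul, ← map_mul, ← map_inv₀, ← map_mul,
    ← map_inv₀, hV, hV] at key
  exact key

theorem fil_aux (d : Dat3 K) {V : ValuationSubring K} (hc : d.c ∈ V) (hc' : d.c⁻¹ ∉ V) (k : ℕ)
    (h1 : (sq d (k + 1)).2⁻¹ * d.c⁻¹ ∈ V) (h2 : (sq d (k + 2)).2⁻¹ * d.c⁻¹ ∈ V) :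
    (sq d 1).2⁻¹ * d.c⁻¹ ∈ V ∧ (sq d 2).2⁻¹ * d.c⁻¹ ∈ V := by
  obtain ⟨ξ, hξ⟩ := ex_xi d
  obtain ⟨V', hV⟩ := ext_val (L := AlgebraicClosure K) V
  induction k with
  | zero => exact ⟨h1, h2⟩
  | succ k ih =>
    refine ih ?_ h1
    have hon := (on_all d (k + 2)).neg
    have key := Pool.Agent.TH646.C8_FIL.filtration V' (c := algebraMap K _ d.c) ((map_ne_zero _).2 d.c_ne)
      ((hV _).2 hc) (by rw [← map_inv₀, hV]; exact hc') (on_map hξ (on_all d (k + 3)))
      (on_map hξ hon) (X_ne d hξ (k + 1))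
      (x3 := ξ * algebraMap K _ (sq d (k + 1)).1) (y3 := algebraMap K _ (sq d (k + 1)).2)
      (by
        conv_lhs => rw [back_all]
        rw [fst_map (cA_ne d) hξ])
      (by
        conv_lhs => rw [back_all]
        rw [snd_map (cA_ne d) hξ, ← back_all])
      ((map_ne_zero _).2 (y_ne_all d (k + 3))) ((map_ne_zero _).2 (neg_ne_zero.2 (y_ne_all d (k + 2))))
      (by rw [← map_inv₀, ← map_inv₀, ← map_mul, hV]; exact h2)
      (by
        rw [← map_inv₀, ← map_inv₀, ← map_mul, hV]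
        have : (ngp (sq d (k + 2))).2⁻¹ * d.c⁻¹ = -((sq d (k + 2)).2⁻¹ * d.c⁻¹) := by
          simp [ngp, inv_neg]
        rw [this]
        exact neg_mem h1)
    have h3 := key.2
    rw [← map_inv₀, ← map_inv₀, ← map_mul, hV] at h3
    exact h3

theorem fil (d : Dat3 K) (k : ℕ) (hk : 1 ≤ k) (v : DVal K) (h0 : 0 < v.ord d.c)
    (h1 : v.ord (sq d (k + 1)).2 = -v.ord d.c) (h2 : v.ord (sq d k).2 = -v.ord d.c) :
    v.ord d.c ≤ v.ord d.a ∧ v.ord d.c ≤ v.ord d.b := by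
  obtain ⟨j, rfl⟩ : ∃ j, k = j + 1 := ⟨k - 1, by omega⟩
  have hci := v.ord_inv d.c_ne
  have hc : d.c ∈ VS v := Or.inr h0.le
  have hc' : d.c⁻¹ ∉ VS v := by
    rintro (h | h)
    · exact inv_ne_zero d.c_ne h
    · omega
  have hmem : ∀ y : K, y ≠ 0 → v.ord y = -v.ord d.c → y⁻¹ * d.c⁻¹ ∈ VS v := by
    intro y hy h
    right
    rw [v.map_mul _ _ (inv_ne_zero hy) (inv_ne_zero d.c_ne), v.ord_inv hy, hci, h]
    omega
  obtain ⟨h3, h4⟩ := fil_aux d hc hc' j (hmem _ (y_ne_all d _) h2) (hmem _ (y_ne_all d _) h1)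
  rw [sq_one, inv_inv] at h3
  rw [sq_two, inv_inv] at h4
  constructor
  · rcases h4 with h4 | h4
    · exact absurd h4 (mul_ne_zero d.a_ne (inv_ne_zero d.c_ne))
    · rw [v.map_mul _ _ d.a_ne (inv_ne_zero d.c_ne), hci] at h4
      omega
  · rcases h3 with h3 | h3
    · exact absurd h3 (mul_ne_zero d.b_ne (inv_ne_zero d.c_ne))
    · rw [v.map_mul _ _ d.b_ne (inv_ne_zero d.c_ne), hci] at h3
      omega

theorem ord_nonneg_of_Cl {v : DVal K} {S : Subalgebra ℂ K} (h : ∀ f ∈ S, f ≠ 0 → v.ord f = 0)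
    {f : K} (hf : f ∈ Cl S K) (h0 : f ≠ 0) : 0 ≤ v.ord f := by
  obtain ⟨y, hy, hi⟩ := IsAlgebraic.exists_integral_multiple (mem_Cl.1 hf)
  have hy0 : (y : K) ≠ 0 := fun e => hy (Subtype.ext e)
  have hr : v.Reg ((y : K) * f) := by
    refine reg_of_isIntegral v (S := S) (fun g hg => ?_) hi
    by_cases hg0 : g = 0
    · left
      exact hg0
    · right
      rw [h g hg hg0]
  have h1 := hr.resolve_left (mul_ne_zero hy0 h0)
  rw [v.map_mul _ _ hy0 h0, h _ y.2 hy0] at h1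
  omega

theorem triv (d : Dat3 K) (v : DVal K) (hv : IsS d v) (k : ℕ) : v.ord (sq d k).2 = 0 := by
  obtain ⟨S, hS⟩ : ∃ S : Subalgebra ℂ K, S = (aeval ![d.a, d.b] : MvPolynomial (Fin 2) ℂ →ₐ[ℂ] K).range :=
    ⟨_, rfl⟩
  obtain ⟨ξ, hξ⟩ := ex_xi d
  have hF : ∀ z : AlgebraicClosure K, ∀ n : ℕ, 0 < n → z ^ n ∈ Cl S (AlgebraicClosure K) →
    z ∈ Cl S (AlgebraicClosure K) := fun z n hn => root_mem hn
  have h0 : ∀ f ∈ S, f ≠ 0 → v.ord f = 0 := by
    rw [hS]
    rintro _ ⟨q, rfl⟩ hq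
    refine hv.1 q ?_
    rintro rfl
    exact hq (map_zero _)
  have ha : d.a ∈ S := by
    rw [hS]
    exact ⟨X 0, by simp⟩
  have hb : d.b ∈ S := by
    rw [hS]
    exact ⟨X 1, by simp⟩
  have m2 : algebraMap K (AlgebraicClosure K) (sq d 2).2 ∈ Cl S (AlgebraicClosure K) := by
    rw [sq_two, map_inv₀]
    exact inv_mem (of_mem ha)
  have m1 : algebraMap K (AlgebraicClosure K) (sq d 1).2 ∈ Cl S (AlgebraicClosure K) := by
    rw [sq_one, map_inv₀]
    exact inv_mem (of_mem hb)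
  have m0 : algebraMap K (AlgebraicClosure K) (sq d 0).2 ∈ Cl S (AlgebraicClosure K) := by
    rw [sq_zero]
    refine add_mem' hF (cA_ne d) hξ (on_two d) (on_one d).neg m2 ?_
    simp only [ngp, map_neg]
    exact neg_mem m1
  have hm : ∀ k, algebraMap K (AlgebraicClosure K) (sq d (k + 1)).2 ∈ Cl S (AlgebraicClosure K) ∧
      algebraMap K (AlgebraicClosure K) (sq d (k + 2)).2 ∈ Cl S (AlgebraicClosure K) := by
    intro k
    induction k with
    | zero => exact ⟨m1, m2⟩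
    | succ k ih =>
      refine ⟨ih.2, ?_⟩
      rw [sq_add]
      exact add_mem' hF (cA_ne d) hξ (on_all d _) (on_all d _) ih.2 ih.1
  have hk : (sq d k).2 ∈ Cl S K := by
    rw [← algebraMap_mem_Cl (L := AlgebraicClosure K)]
    cases k with
    | zero => exact m0
    | succ k => exact (hm k).1
  have hy := y_ne_all d k
  have h1 := ord_nonneg_of_Cl h0 hk hy
  have h2 := ord_nonneg_of_Cl h0 (inv_mem hk) (inv_ne_zero hy)
  rw [v.ord_inv hy] at h2
  omega

theorem ord_zero_of_Cl {v : DVal K} {S : Subalgebra ℂ K} (h : ∀ f ∈ S, f ≠ 0 → v.ord f = 0)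
    {f : K} (hf : f ∈ Cl S K) (h0 : f ≠ 0) : v.ord f = 0 := by
  have h1 := ord_nonneg_of_Cl h hf h0
  have h2 := ord_nonneg_of_Cl h (inv_mem hf) (inv_ne_zero h0)
  rw [v.ord_inv h0] at h2
  omega

theorem pair (d : Dat3 K) (k : ℕ) (hk : 1 ≤ k) (v : DVal K)
    (hv : ∀ q : MvPolynomial (Fin 2) ℂ, q ≠ 0 →
      v.ord (aeval ![((sq d (k + 1)).2)⁻¹, ((sq d k).2)⁻¹] q) = 0)
    (q : MvPolynomial (Fin 2) ℂ) (hq : q ≠ 0) : v.ord (aeval ![d.a, d.b] q) = 0 := by
  obtain ⟨S, hS⟩ : ∃ S : Subalgebra ℂ K, S =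
      (aeval ![((sq d (k + 1)).2)⁻¹, ((sq d k).2)⁻¹] : MvPolynomial (Fin 2) ℂ →ₐ[ℂ] K).range :=
    ⟨_, rfl⟩
  obtain ⟨ξ, hξ⟩ := ex_xi d
  have hF : ∀ z : AlgebraicClosure K, ∀ n : ℕ, 0 < n → z ^ n ∈ Cl S (AlgebraicClosure K) →
    z ∈ Cl S (AlgebraicClosure K) := fun z n hn => root_mem hn
  have h0 : ∀ f ∈ S, f ≠ 0 → v.ord f = 0 := by
    rw [hS]
    rintro _ ⟨q, rfl⟩ hq
    refine hv q ?_
    rintro rfl
    exact hq (map_zero _)
  have e1 : ((sq d (k + 1)).2)⁻¹ ∈ S := by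
    rw [hS]
    exact ⟨X 0, by simp⟩
  have e0 : ((sq d k).2)⁻¹ ∈ S := by
    rw [hS]
    exact ⟨X 1, by simp⟩
  have m1 : algebraMap K (AlgebraicClosure K) (sq d (k + 1)).2 ∈ Cl S (AlgebraicClosure K) := by
    have := inv_mem (of_mem (L := AlgebraicClosure K) e1)
    rwa [map_inv₀, inv_inv] at this
  have m0 : algebraMap K (AlgebraicClosure K) (sq d k).2 ∈ Cl S (AlgebraicClosure K) := by
    have := inv_mem (of_mem (L := AlgebraicClosure K) e0)
    rwa [map_inv₀, inv_inv] at this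
  have hm : ∀ j, j + 1 ≤ k →
      algebraMap K (AlgebraicClosure K) (sq d (k - j + 1)).2 ∈ Cl S (AlgebraicClosure K) ∧
      algebraMap K (AlgebraicClosure K) (sq d (k - j)).2 ∈ Cl S (AlgebraicClosure K) := by
    intro j
    induction j with
    | zero =>
      intro _
      exact ⟨m1, m0⟩
    | succ j ih =>
      intro hj
      obtain ⟨i1, i0⟩ := ih (by omega)
      have e : k - j = k - (j + 1) + 1 := by omega
      rw [e] at i1 i0
      refine ⟨i0, ?_⟩
      rw [back_all]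
      refine add_mem' hF (cA_ne d) hξ (on_all d _) (on_all d _).neg i1 ?_
      simp only [ngp, map_neg]
      exact neg_mem i0
  obtain ⟨i2, i1⟩ := hm (k - 1) (by omega)
  have e : k - (k - 1) = 1 := by omega
  rw [e] at i2 i1
  rw [sq_two] at i2
  rw [sq_one] at i1
  have ia : d.a ∈ Cl S K := by
    have := inv_mem (algebraMap_mem_Cl.1 i2)
    rwa [inv_inv] at this
  have ib : d.b ∈ Cl S K := by
    have := inv_mem (algebraMap_mem_Cl.1 i1)
    rwa [inv_inv] at this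
  have hle : Algebra.adjoin ℂ (Set.range ![d.a, d.b]) ≤ (ClI S).toSubalgebra := by
    rw [Algebra.adjoin_le_iff]
    rintro _ ⟨i, rfl⟩
    fin_cases i
    · exact ia
    · exact ib
  have hmem : aeval ![d.a, d.b] q ∈ Cl S K := by
    apply hle
    rw [Algebra.adjoin_range_eq_range_aeval]
    exact ⟨q, rfl⟩
  refine ord_zero_of_Cl h0 hmem ?_
  intro hz
  have hind : AlgebraicIndependent ℂ ![d.a, d.b] := by
    have h1 := d.ind.comp ![(0 : Fin 3), 1] (by decide)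
    have h2 : (![d.a, d.b, d.c] : Fin 3 → K) ∘ ![(0 : Fin 3), 1] = ![d.a, d.b] := by
      ext i
      fin_cases i <;> rfl
    rwa [h2] at h1
  exact hq ((injective_iff_map_eq_zero _).1 hind q hz)

/-- The Fibonacci sequence of points exists. -/
theorem exists_sq {K : Type} [Field K] [Algebra ℂ K] (d : Dat3 K) : Nonempty (Sq3 d) := by
  refine ⟨{ y := fun k => (sq d k).2
            D := Dk d
            y_ne := y_ne_all d
            D_ne := Dk_ne d
            y1 := by rw [sq_one]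
            y2 := by rw [sq_two]
            par := par d
            fil := fil d
            ind := fun k hk => ?_
            alg := fun k hk f => ?_
            triv := triv d
            pair := pair d }⟩
  · obtain ⟨j, rfl⟩ : ∃ j, k = j + 1 := ⟨k - 1, by omega⟩
    exact (good d j).ind
  · obtain ⟨j, rfl⟩ : ∃ j, k = j + 1 := ⟨k - 1, by omega⟩
    exact (good d j).alg f

end main

end Pool.Agent.KS6_79.CY.SEQ
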